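import Pool.Agent.Lib_MP_0e5907_lb.Volume

/-!
# MP_0e5907, lower bound - the bound for a chain in a convex set of given volume
-/

namespace MP0e5907LB

open Finset MeasureTheory

variable {m : ℕ} {W : Fin 3 → ℝ} {P l : ℕ → Fin 3 → ℝ}

theorem det3_neg (W v a : Fin 3 → ℝ) : det3 W (-v) a = - det3 W v a := by
  simp only [det3, Pi.neg_apply]; ring

theorem Chain.bound_pos (C : Chain m W P l) (h0 : 0 < DD W P 1) (hm : 4 ≤ m) {r : ℕ} {V : ℝ} {H : Set (Fin 3 → ℝ)}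
    (hH : Convex ℝ H) (hz : (0 : Fin 3 → ℝ) ∈ H) (hP : ∀ i, i ≤ m → P i ∈ H) (hW : W ∈ H)
    (hV : volume H ≤ ENNReal.ofReal V) (hV0 : 0 ≤ V) (hr : 27 * V ≤ 4096 ^ r) :
    m - 2 ≤ 3000 * 4 ^ r + 3 := by
  refine chain_bound (C.str h0) (C.sol (P 1)) (le_of_eq ?_) ?_ ?_ (r := r) ?_
  · show (0 : ℝ) = det3 W (P 1) (P (0 + 1))
    simp only [det3, zero_add]; ring
  · exact h0
  · intro i j hij hj h1 h2 h3 h4
    refine C.crossing h0 (- P 1) (i := i + 1) (j := j + 1) (by omega) (by omega) (by omega) ?_ ?_ ?_ ?_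
    · rw [det3_neg]; simpa using h1
    · rw [det3_neg]; simpa using h2
    · rw [det3_neg]; simpa using h3
    · rw [det3_neg]; simpa using h4
  · exact (C.total h0 hH hz hP hW hV hV0).trans hr

theorem det3_neg3 (a b c : Fin 3 → ℝ) : det3 (-a) (-b) (-c) = - det3 a b c := by
  simp only [det3, Pi.neg_apply]
  ring

theorem dot3_neg2 (a b : Fin 3 → ℝ) : dot3 (-a) (-b) = dot3 a b := by
  simp only [dot3, Pi.neg_apply]
  ring

theorem Chain.mirror (C : Chain m W P l) : Chain m (-W) (fun i => - P i) (fun i => - l i) := by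
  constructor
  · intro j i h1 h2 h3 h4
    rw [dot3_neg2, dot3_neg2]
    exact C.on j i h1 h2 h3 h4
  · intro j i h1 h2 h3 h4
    rw [dot3_neg2, dot3_neg2]
    exact C.off j i h1 h2 h3 h4
  · intro j h1 h2 h3
    rw [dot3_neg2]
    exact C.odd j h1 h2 h3
  · intro j h1 h2 h3
    rw [dot3_neg2]
    exact C.even j h1 h2 h3
  · intro i j
    obtain ⟨k, hk⟩ := C.intP i j
    exact ⟨-k, by push_cast; rw [← hk]; rfl⟩
  · intro j
    obtain ⟨k, hk⟩ := C.intW j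
    exact ⟨-k, by push_cast; rw [← hk]; rfl⟩

theorem Chain.DD1_ne (C : Chain m W P l) (hm : 4 ≤ m) : DD W P 1 ≠ 0 := by
  intro h
  have h2 : DD W P 2 ≠ 0 := C.Dne (c := 1) le_rfl (by omega)
  obtain ⟨α, β, ha, hb, he⟩ := C.xD' (c := 1) le_rfl (by omega)
  obtain ⟨α', β', ha', hb', he'⟩ := C.xD (c := 1) (by omega)
  rw [h, mul_zero] at he
  have hx := (mul_eq_zero.1 he).resolve_left ha.ne'
  rw [hx, mul_zero] at he'
  exact h2 ((mul_eq_zero.1 he'.symm).resolve_left hb'.ne')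

/-- both orientations -/
theorem Chain.wlog (C : Chain m W P l) (hm : 4 ≤ m) {V : ℝ} {H : Set (Fin 3 → ℝ)}
    (hH : Convex ℝ H) (hz : (0 : Fin 3 → ℝ) ∈ H) (hP : ∀ i, i ≤ m → P i ∈ H) (hW : W ∈ H)
    (hV : volume H ≤ ENNReal.ofReal V) (hV0 : 0 ≤ V) : 1 ≤ 27 * V ∧ ∀ r : ℕ, 27 * V ≤ 4096 ^ r →
    m - 2 ≤ 3000 * 4 ^ r + 3 := by
  have one : ∀ (W' : Fin 3 → ℝ) (P' l' : ℕ → Fin 3 → ℝ) (H' : Set (Fin 3 → ℝ)), Chain m W' P' l' → 0 < DD W' P' 1 →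
      Convex ℝ H' → (0 : Fin 3 → ℝ) ∈ H' → (∀ i, i ≤ m → P' i ∈ H') → W' ∈ H' → volume H' ≤ ENNReal.ofReal V →
      1 ≤ 27 * V := by
    intro W' P' l' H' C' h0 h1 h2 h3 h4 h5
    have ht := C'.total h0 h1 h2 h3 h4 h5 hV0
    have hs := C'.str h0
    have h6 : (1 : ℝ) ≤ DD W' P' (0 + 1) := hs.D1 0 (by omega)
    have h7 : DD W' P' (0 + 1) ≤ ∑ j ∈ range (m - 2), DD W' P' (j + 1) := by
      refine Finset.single_le_sum (f := fun j => DD W' P' (j + 1)) (fun j hj => ?_) (Finset.mem_range.2 (by omega))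
      rw [Finset.mem_range] at hj
      have := hs.D1 j hj
      have h8 : (1 : ℝ) ≤ DD W' P' (j + 1) := this
      linarith
    linarith
  rcases lt_or_gt_of_ne (C.DD1_ne hm) with h | h
  · have hH' : Convex ℝ (-H) := hH.neg
    have h1 : 0 < DD (-W) (fun i => - P i) 1 := by
      unfold DD at h ⊢
      rw [det3_neg3]
      linarith
    have hz' : (0 : Fin 3 → ℝ) ∈ -H := by rw [Set.mem_neg, neg_zero]; exact hz
    have hP' : ∀ i, i ≤ m → - P i ∈ -H := fun i hi => by rw [Set.mem_neg, neg_neg]; exact hP i hi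
    have hW' : - W ∈ -H := by rw [Set.mem_neg, neg_neg]; exact hW
    have hV' : volume (-H) ≤ ENNReal.ofReal V := by rw [Measure.measure_neg]; exact hV
    exact ⟨one _ _ _ _ C.mirror h1 hH' hz' hP' hW' hV', fun r hr =>
      C.mirror.bound_pos h1 hm hH' hz' hP' hW' hV' hV0 hr⟩
  · exact ⟨one _ _ _ _ C h hH hz hP hW hV, fun r hr => C.bound_pos h hm hH hz hP hW hV hV0 hr⟩

theorem exists_scale {T : ℝ} (hT : 1 ≤ T) : ∃ r : ℕ, T ≤ 4096 ^ r ∧ 4096 ^ r ≤ 4096 * T := by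
  classical
  have hex : ∃ r : ℕ, T ≤ 4096 ^ r := by
    obtain ⟨r, hr⟩ := pow_unbounded_of_one_lt T (show (1 : ℝ) < 4096 by norm_num)
    exact ⟨r, hr.le⟩
  refine ⟨Nat.find hex, Nat.find_spec hex, ?_⟩
  rcases Nat.eq_zero_or_pos (Nat.find hex) with h | h
  · rw [h, pow_zero]
    linarith
  · obtain ⟨s, hs⟩ : ∃ s, Nat.find hex = s + 1 := ⟨Nat.find hex - 1, by omega⟩
    have := Nat.find_min hex (m := s) (by omega)
    rw [hs, pow_succ]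
    push Not at this
    linarith

/-- a chain in a convex set of volume `V` has `(m + 3) ^ 6 ≤ (5 * 10 ^ 8) ^ 3 * V` -/
theorem Chain.bound (C : Chain m W P l) (hm : 4 ≤ m) {V : ℝ} {H : Set (Fin 3 → ℝ)}
    (hH : Convex ℝ H) (hz : (0 : Fin 3 → ℝ) ∈ H) (hP : ∀ i, i ≤ m → P i ∈ H) (hW : W ∈ H)
    (hV : volume H ≤ ENNReal.ofReal V) (hV0 : 0 ≤ V) :
    ((m + 3 : ℕ) : ℝ) ^ 6 ≤ 500000000 ^ 3 * V := by
  obtain ⟨h1, h2⟩ := C.wlog hm hH hz hP hW hV hV0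
  obtain ⟨r, h3, h4⟩ := exists_scale h1
  have hb := h2 r h3
  have h5 : 1 ≤ 4 ^ r := Nat.one_le_pow _ _ (by norm_num)
  have h7 : m + 3 ≤ 3008 * 4 ^ r := by omega
  have h8 : ((m + 3 : ℕ) : ℝ) ≤ 3008 * 4 ^ r := by exact_mod_cast h7
  have h9 : ((4 : ℝ) ^ r) ^ 6 = 4096 ^ r := by
    rw [← pow_mul, show (4096 : ℝ) = 4 ^ 6 by norm_num, ← pow_mul]
    congr 1
    ring
  calc ((m + 3 : ℕ) : ℝ) ^ 6 ≤ (3008 * 4 ^ r) ^ 6 := by gcongr
    _ = 3008 ^ 6 * ((4 : ℝ) ^ r) ^ 6 := by ring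
    _ = 3008 ^ 6 * 4096 ^ r := by rw [h9]
    _ ≤ 3008 ^ 6 * (4096 * (27 * V)) := by gcongr
    _ ≤ 500000000 ^ 3 * V := by nlinarith

end MP0e5907LB
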