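import Pool.Agent.Lib_MP_0e5907_lb.Count

/-!
# MP_0e5907, lower bound - chains of quadrangular facets between two hubs

The hubs are `0` (facets of odd index) and `W` (facets of even index), the facet `j` contains its hub and `P (j-1), P j, P (j+1)`,
`l j` is an outer normal of the facet `j`.
-/

namespace MP0e5907LB

open Finset

def det3 (a b c : Fin 3 → ℝ) : ℝ :=
  a 0 * (b 1 * c 2 - b 2 * c 1) - a 1 * (b 0 * c 2 - b 2 * c 0) + a 2 * (b 0 * c 1 - b 1 * c 0)

def dot3 (a b : Fin 3 → ℝ) : ℝ := a 0 * b 0 + a 1 * b 1 + a 2 * b 2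

def cross3 (a b : Fin 3 → ℝ) : Fin 3 → ℝ :=
  ![a 1 * b 2 - a 2 * b 1, a 2 * b 0 - a 0 * b 2, a 0 * b 1 - a 1 * b 0]

open Classical in
/-- `1` for even indices, `0` for odd indices -/
noncomputable def ev (j : ℕ) : ℝ := if Even j then 1 else 0

structure Chain (m : ℕ) (W : Fin 3 → ℝ) (P l : ℕ → Fin 3 → ℝ) : Prop where
  on : ∀ j i, 1 ≤ j → j < m → i ≤ j + 1 → j ≤ i + 1 → dot3 (l j) (P i) = ev j * dot3 (l j) W
  off : ∀ j i, 1 ≤ j → j < m → i ≤ m → (j + 1 < i ∨ i + 1 < j) → dot3 (l j) (P i) < ev j * dot3 (l j) W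
  odd : ∀ j, 1 ≤ j → j < m → ¬ Even j → dot3 (l j) W < 0
  even : ∀ j, 1 ≤ j → j < m → Even j → 0 < dot3 (l j) W
  intP : ∀ i j, ∃ k : ℤ, P i j = k
  intW : ∀ j, ∃ k : ℤ, W j = k

/-- the time steps -/
def DD (W : Fin 3 → ℝ) (P : ℕ → Fin 3 → ℝ) (j : ℕ) : ℝ := det3 W (P j) (P (j + 1))

/-- `x (j+1)` -/
def xx (W : Fin 3 → ℝ) (P : ℕ → Fin 3 → ℝ) (j : ℕ) : ℝ :=
  det3 W (P (j - 1)) (P j) + det3 W (P j) (P (j + 1)) - det3 W (P (j - 1)) (P (j + 1))

theorem xx_succ (W : Fin 3 → ℝ) (P : ℕ → Fin 3 → ℝ) (j : ℕ) :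
    xx W P (j + 1) = DD W P j + DD W P (j + 1) - det3 W (P j) (P (j + 2)) := rfl

theorem ident1 (W a b c g : Fin 3 → ℝ) : det3 W b c * dot3 g a + det3 W a b * dot3 g c - det3 W a c * dot3 g b =
    det3 a b c * dot3 g W := by
  simp only [det3, dot3]
  ring

theorem ident2 (W v a b g : Fin 3 → ℝ) : det3 W a b * dot3 g v =
    det3 v a b * dot3 g W + det3 W v b * dot3 g a - det3 W v a * dot3 g b := by
  simp only [det3, dot3]
  ring

theorem ident3 (u v w a b c : Fin 3 → ℝ) : det3 u v w * det3 a b c =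
    dot3 u a * (dot3 v b * dot3 w c - dot3 v c * dot3 w b) - dot3 u b * (dot3 v a * dot3 w c - dot3 v c * dot3 w a) +
      dot3 u c * (dot3 v a * dot3 w b - dot3 v b * dot3 w a) := by
  simp only [det3, dot3]
  ring

variable {m : ℕ} {W : Fin 3 → ℝ} {P l : ℕ → Fin 3 → ℝ}

theorem Chain.ne0 (C : Chain m W P l) {j : ℕ} (h1 : 1 ≤ j) (h2 : j < m) : dot3 (l j) W ≠ 0 := by
  by_cases h : Even j
  · exact (C.even j h1 h2 h).ne'
  · exact (C.odd j h1 h2 h).ne

theorem Chain.copl (C : Chain m W P l) {j : ℕ} (h : j + 1 < m) :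
    det3 (P j) (P (j + 1)) (P (j + 2)) = ev (j + 1) * xx W P (j + 1) := by
  have h0 := C.ne0 (j := j + 1) (by omega) h
  have e1 := C.on (j + 1) j (by omega) h (by omega) (by omega)
  have e2 := C.on (j + 1) (j + 1) (by omega) h (by omega) (by omega)
  have e3 := C.on (j + 1) (j + 2) (by omega) h (by omega) (by omega)
  have hi := ident1 W (P j) (P (j + 1)) (P (j + 2)) (l (j + 1))
  rw [e1, e2, e3] at hi
  have : (det3 (P j) (P (j + 1)) (P (j + 2)) - ev (j + 1) * xx W P (j + 1)) * dot3 (l (j + 1)) W = 0 := by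
    rw [xx_succ]
    unfold DD
    linear_combination -hi
  rcases mul_eq_zero.1 this with h3 | h3
  · linarith
  · exact absurd h3 h0

/-- the basic relation at the vertex `j+1` -/
theorem Chain.rel (C : Chain m W P l) {j : ℕ} (h : j + 1 < m) (g : Fin 3 → ℝ) :
    DD W P (j + 1) * dot3 g (P j) + DD W P j * dot3 g (P (j + 2)) -
      (DD W P j + DD W P (j + 1) - xx W P (j + 1)) * dot3 g (P (j + 1)) =
      ev (j + 1) * xx W P (j + 1) * dot3 g W := by
  have hi := ident1 W (P j) (P (j + 1)) (P (j + 2)) g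
  rw [C.copl h] at hi
  rw [← hi, xx_succ]
  unfold DD
  ring

theorem ev_succ (j : ℕ) : ev (j + 1) = 1 - ev j := by
  unfold ev
  by_cases h : Even j
  · have h2 : ¬ Even (j + 1) := by rw [Nat.even_add_one]; simpa using h
    rw [if_pos h, if_neg h2]; ring
  · have h2 : Even (j + 1) := by rw [Nat.even_add_one]; exact h
    rw [if_neg h, if_pos h2]; ring

theorem ev_add_two (j : ℕ) : ev (j + 2) = ev j := by
  rw [ev_succ, ev_succ]; ring

theorem ev_sq (j : ℕ) : (1 - 2 * ev j) ^ 2 = 1 := by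
  unfold ev
  by_cases h : Even j
  · rw [if_pos h]; norm_num
  · rw [if_neg h]; norm_num

/-- the height of the other hub below the facet `k` -/
theorem Chain.nupos (C : Chain m W P l) {k : ℕ} (h1 : 1 ≤ k) (h2 : k < m) :
    0 < (2 * ev k - 1) * dot3 (l k) W := by
  unfold ev
  by_cases h : Even k
  · rw [if_pos h]
    have := C.even k h1 h2 h
    linarith
  · rw [if_neg h]
    have := C.odd k h1 h2 h
    linarith

theorem Chain.offle (C : Chain m W P l) {k i : ℕ} (h1 : 1 ≤ k) (h2 : k < m) (hi : i ≤ m) :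
    dot3 (l k) (P i) ≤ ev k * dot3 (l k) W := by
  rcases Nat.lt_or_ge (k + 1) i with h | h
  · exact (C.off k i h1 h2 hi (Or.inl h)).le
  · rcases Nat.lt_or_ge (i + 1) k with h' | h'
    · exact (C.off k i h1 h2 hi (Or.inr h')).le
    · exact (C.on k i h1 h2 h h').le

/-- `D_c` is not zero -/
theorem Chain.Dne (C : Chain m W P l) {c : ℕ} (h1 : 1 ≤ c) (h2 : c + 2 < m) : DD W P (c + 1) ≠ 0 := by
  -- facets c, c+1, c+2; edge (c+1,c+2)
  have hi := ident3 (l c) (l (c + 1)) (l (c + 2)) W (P (c + 1)) (P (c + 2))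
  have a1 := C.on (c + 1) (c + 1) (by omega) (by omega) (by omega) (by omega)
  have a2 := C.on (c + 1) (c + 2) (by omega) (by omega) (by omega) (by omega)
  have b1 := C.on (c + 2) (c + 1) (by omega) (by omega) (by omega) (by omega)
  have b2 := C.on (c + 2) (c + 2) (by omega) (by omega) (by omega) (by omega)
  have c1 := C.on c (c + 1) (by omega) (by omega) (by omega) (by omega)
  have c2 := C.off c (c + 2) (by omega) (by omega) (by omega) (Or.inl (by omega))
  have n0 := C.nupos (k := c) h1 (by omega)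
  have n1 := C.ne0 (j := c + 1) (by omega) (by omega)
  have n2 := C.nupos (k := c + 2) (by omega) (by omega)
  intro hD
  have hD' : det3 W (P (c + 1)) (P (c + 2)) = 0 := hD
  rw [hD', a1, a2, b1, b2, c1, mul_zero] at hi
  rw [ev_add_two, ev_succ] at hi
  rw [ev_add_two] at n2
  have hprod : dot3 (l (c + 1)) W * ((ev c * dot3 (l c) W - dot3 (l c) (P (c + 2))) *
      ((2 * ev c - 1) * dot3 (l (c + 2)) W)) = 0 := by
    linear_combination (1) * hi
  have : (ev c * dot3 (l c) W - dot3 (l c) (P (c + 2))) * ((2 * ev c - 1) * dot3 (l (c + 2)) W) > 0 :=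
    mul_pos (by linarith) n2
  rcases mul_eq_zero.1 hprod with h | h
  · exact n1 h
  · linarith

/-- `x_c` has the sign of `D_c` -/
theorem Chain.xD (C : Chain m W P l) {c : ℕ} (h2 : c + 2 < m) : ∃ α β : ℝ, 0 < α ∧ 0 < β ∧
    α * xx W P (c + 1) = β * DD W P (c + 1) := by
  have hr := C.rel (j := c) (by omega) (l (c + 2))
  have b1 := C.on (c + 2) (c + 1) (by omega) (by omega) (by omega) (by omega)
  have b2 := C.on (c + 2) (c + 2) (by omega) (by omega) (by omega) (by omega)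
  have b0 := C.off (c + 2) c (by omega) (by omega) (by omega) (Or.inr (by omega))
  have n2 := C.nupos (k := c + 2) (by omega) (by omega)
  refine ⟨(2 * ev (c + 2) - 1) * dot3 (l (c + 2)) W, ev (c + 2) * dot3 (l (c + 2)) W - dot3 (l (c + 2)) (P c), n2,
    by linarith, ?_⟩
  have e1 : ev (c + 1) = 1 - ev c := ev_succ c
  have e2 : ev (c + 2) = ev c := ev_add_two c
  rw [b1, b2, e1, e2] at hr
  rw [e2]
  linear_combination hr

/-- `x_c` has the sign of `D_{c-1}` -/
theorem Chain.xD' (C : Chain m W P l) {c : ℕ} (h1 : 1 ≤ c) (h2 : c + 1 < m) : ∃ α β : ℝ, 0 < α ∧ 0 < β ∧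
    α * xx W P (c + 1) = β * DD W P c := by
  have hr := C.rel (j := c) (by omega) (l c)
  have b1 := C.on c (c + 1) (by omega) (by omega) (by omega) (by omega)
  have b2 := C.on c c (by omega) (by omega) (by omega) (by omega)
  have b0 := C.off c (c + 2) (by omega) (by omega) (by omega) (Or.inl (by omega))
  have n2 := C.nupos (k := c) (by omega) (by omega)
  refine ⟨(2 * ev c - 1) * dot3 (l c) W, ev c * dot3 (l c) W - dot3 (l c) (P (c + 2)), n2,
    by linarith, ?_⟩
  rw [b1, b2, ev_succ] at hr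
  linear_combination hr

/-- `E_c` has the sign of `D_c` -/
theorem Chain.ED (C : Chain m W P l) {c : ℕ} (h2 : c + 3 < m) : ∃ α β : ℝ, 0 < α ∧ 0 < β ∧
    α * (DD W P c + DD W P (c + 1) - xx W P (c + 1)) = β * DD W P (c + 1) := by
  have hr := C.rel (j := c) (by omega) (l (c + 3))
  have b2 := C.on (c + 3) (c + 2) (by omega) (by omega) (by omega) (by omega)
  have b0 := C.off (c + 3) c (by omega) (by omega) (by omega) (Or.inr (by omega))
  have b1 := C.off (c + 3) (c + 1) (by omega) (by omega) (by omega) (Or.inr (by omega))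
  refine ⟨ev (c + 3) * dot3 (l (c + 3)) W - dot3 (l (c + 3)) (P (c + 1)),
    ev (c + 3) * dot3 (l (c + 3)) W - dot3 (l (c + 3)) (P c), by linarith, by linarith, ?_⟩
  have e : ev (c + 3) = ev (c + 1) := ev_add_two (c + 1)
  rw [b2, e] at hr
  rw [e]
  linear_combination hr

/-- `E_c` has the sign of `D_{c-1}` -/
theorem Chain.ED' (C : Chain m W P l) {c : ℕ} (h2 : c + 3 < m) : ∃ α β : ℝ, 0 < α ∧ 0 < β ∧
    α * (DD W P (c + 2) + DD W P (c + 3) - xx W P (c + 3)) = β * DD W P (c + 2) := by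
  have hr := C.rel (j := c + 2) (by omega) (l (c + 1))
  have b2 := C.on (c + 1) (c + 2) (by omega) (by omega) (by omega) (by omega)
  have b0 := C.off (c + 1) (c + 3) (by omega) (by omega) (by omega) (Or.inl (by omega))
  have b1 := C.off (c + 1) (c + 4) (by omega) (by omega) (by omega) (Or.inl (by omega))
  refine ⟨ev (c + 1) * dot3 (l (c + 1)) W - dot3 (l (c + 1)) (P (c + 3)),
    ev (c + 1) * dot3 (l (c + 1)) W - dot3 (l (c + 1)) (P (c + 4)), by linarith, by linarith, ?_⟩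
  have e : ev (c + 2 + 1) = ev (c + 1) := ev_add_two (c + 1)
  rw [b2, e] at hr
  have e5 : DD W P (c + 2 + 1) = DD W P (c + 3) := rfl
  have e6 : xx W P (c + 2 + 1) = xx W P (c + 3) := rfl
  have e7 : P (c + 2 + 2) = P (c + 4) := rfl
  have e8 : P (c + 2 + 1) = P (c + 3) := rfl
  rw [e5, e6, e7, e8] at hr
  linear_combination hr

theorem pos_of_eq {α β x y : ℝ} (hα : 0 < α) (hβ : 0 < β) (h : α * x = β * y) (hy : 0 < y) : 0 < x := by
  have : 0 < α * x := by rw [h]; positivity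
  exact (mul_pos_iff_of_pos_left hα).1 this

/-- all `D` are positive if one is -/
theorem Chain.Dpos (C : Chain m W P l) (h2 : 0 < DD W P 1) : ∀ j, j + 2 < m → 0 < DD W P (j + 1) := by
  intro j
  induction j with
  | zero => intro _; exact h2
  | succ j ih =>
    intro hj
    have h0 := ih (by omega)
    obtain ⟨α, β, ha, hb, he⟩ := C.xD' (c := j + 1) (by omega) (by omega)
    obtain ⟨α', β', ha', hb', he'⟩ := C.xD (c := j + 1) (by omega)
    have h3 := pos_of_eq ha hb he h0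
    exact pos_of_eq hb' ha' he'.symm h3

theorem Chain.xpos (C : Chain m W P l) (h2 : 0 < DD W P 1) (hm : 3 ≤ m) : ∀ j, j + 1 < m → 0 < xx W P (j + 1) := by
  intro j hj
  rcases Nat.lt_or_ge (j + 2) m with h | h
  · obtain ⟨α, β, ha, hb, he⟩ := C.xD (c := j) h
    exact pos_of_eq ha hb he (C.Dpos h2 j h)
  · obtain ⟨α, β, ha, hb, he⟩ := C.xD' (c := j) (by omega) (by omega)
    obtain ⟨i, rfl⟩ : ∃ i, j = i + 1 := ⟨j - 1, by omega⟩
    exact pos_of_eq ha hb he (C.Dpos h2 i (by omega))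

end MP0e5907LB
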