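import Pool.Agent.Lib_MP_0e5907_lb.Run

/-!
# MP_0e5907, lower bound - counting the vertices of a run and of the whole chain
-/

namespace MP0e5907LB

open Finset

/-- a run of total time at most `4096 ^ r` has at most `1000 * 4 ^ r` steps -/
theorem run_bound {m : ℕ} {D x f : ℕ → ℝ} (h : Str m D x) (hf : Sol m D x f) : ∀ r a b : ℕ, a ≤ b → b ≤ m →
    0 ≤ f a → 0 ≤ f b → (∀ j, a < j → j < b → 0 < f j) → tm D b - tm D a ≤ 4096 ^ r → b ≤ a + 1000 * 4 ^ r := by
  classical
  intro r
  induction r with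
  | zero =>
    intro a b hab hbm _ _ _ ht
    have h1 := tm_ge h hab hbm
    have h2 : (b : ℝ) ≤ (a + 1 : ℕ) := by push_cast; linarith
    have h3 : b ≤ a + 1 := by exact_mod_cast h2
    omega
  | succ r ih =>
    intro a b hab hbm fa fb fpos ht
    have hΛ : (0 : ℝ) < 4096 ^ r := by positivity
    have h4r : 1 ≤ 4 ^ r := Nat.one_le_pow _ _ (by norm_num)
    -- left part
    set a' := Nat.findGreatest (fun j => a ≤ j ∧ tm D j - tm D a ≤ 4096 ^ r) b with ha'
    have sa : a ≤ a' ∧ tm D a' - tm D a ≤ 4096 ^ r := by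
      have := Nat.findGreatest_spec (P := fun j => a ≤ j ∧ tm D j - tm D a ≤ 4096 ^ r) hab
        ⟨le_rfl, by rw [sub_self]; positivity⟩
      exact this
    have ha'b : a' ≤ b := Nat.findGreatest_le b
    have ga : ∀ j, a' < j → j ≤ b → 4096 ^ r < tm D j - tm D a := by
      intro j hj hjb
      have := Nat.findGreatest_is_greatest (P := fun j => a ≤ j ∧ tm D j - tm D a ≤ 4096 ^ r) hj hjb
      by_contra hc
      exact this ⟨by omega, not_lt.1 hc⟩
    -- right part
    have hex : ∃ j, a ≤ j ∧ tm D b - tm D j ≤ 4096 ^ r := ⟨b, hab, by rw [sub_self]; positivity⟩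
    set b' := Nat.find hex with hb'
    have sb : a ≤ b' ∧ tm D b - tm D b' ≤ 4096 ^ r := Nat.find_spec hex
    have hb'b : b' ≤ b := Nat.find_min' hex ⟨hab, by rw [sub_self]; positivity⟩
    have gb : ∀ j, a ≤ j → j < b' → 4096 ^ r < tm D b - tm D j := by
      intro j hj hjb
      have := Nat.find_min hex hjb
      by_contra hc
      exact this ⟨hj, not_lt.1 hc⟩
    have fge : ∀ j, a ≤ j → j ≤ b → 0 ≤ f j := by
      intro j h1 h2
      rcases h1.eq_or_lt with h1 | h1
      · rw [← h1]; exact fa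
      · rcases h2.eq_or_lt with h2 | h2
        · rw [h2]; exact fb
        · exact (fpos j h1 h2).le
    have b1 := ih a a' sa.1 (by omega) fa (fge a' sa.1 ha'b) (fun j h1 h2 => fpos j h1 (by omega)) sa.2
    have b2 := ih b' b hb'b hbm (fge b' sb.1 hb'b) fb (fun j h1 h2 => fpos j (by omega) h2) sb.2
    have hpow : 4 ^ (r + 1) = 4 * 4 ^ r := by ring
    rcases Nat.lt_or_ge (a' + 5) b' with hlt | hge
    · obtain ⟨k, hk⟩ : ∃ k, b' = a' + 5 + k := ⟨b' - (a' + 5), by omega⟩
      have hk0 : 0 < k := by omega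
      have hS : ∑ j ∈ Ico a' (a' + k + 4), mu D x j ≤ 2 / 4096 ^ r := by
        have hmm := mid_mass h hf (a := a) (L := b - a - 1) (by omega) fa
          (by rw [show a + (b - a - 1) + 1 = b by omega]; exact fb)
          (fun j hj => fpos _ (by omega) (by omega)) hΛ (a' - a) (a' - a + k + 4) (by omega) (by
            intro j h1 h2
            rw [show a + (b - a - 1) + 1 = b by omega]
            exact ⟨(ga _ (by omega) (by omega)).le, (gb _ (by omega) (by omega)).le⟩)
        refine le_of_eq_of_le ?_ hmm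
        have e1 := Finset.sum_Ico_add' (fun j => mu D x j) (a' - a) (a' - a + k + 4) a
        have e2 : a' - a + a = a' := by omega
        have e3 : a' - a + k + 4 + a = a' + k + 4 := by omega
        rw [e2, e3] at e1
        rw [← e1]
        refine Finset.sum_congr rfl fun j _ => ?_
        rw [add_comm]
      have hT : ∑ j ∈ Ico a' (a' + k + 5), D j ≤ 4096 * 4096 ^ r := by
        have e1 : ∑ j ∈ Ico a' (a' + k + 5), D j = tm D (a' + k + 5) - tm D a' := by
          rw [Finset.sum_Ico_eq_sub _ (by omega)]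
          rfl
        have e2 : tm D (a' + k + 5) ≤ tm D b := tm_mono h (by omega) hbm
        have e3 : tm D a ≤ tm D a' := tm_mono h sa.1 (by omega)
        have e4 : (4096 : ℝ) ^ (r + 1) = 4096 * 4096 ^ r := by ring
        rw [e4] at ht
        rw [e1]
        linarith
      have hw := window h hk0 (by omega) (by positivity) (by positivity) hS hT
      have e : (10 * (2 / (4096 : ℝ) ^ r)) ^ 5 * (12 * (4096 * 4096 ^ r)) ^ 7 =
          (20 ^ 5 * 49152 ^ 7) * ((4 : ℝ) ^ r) ^ 12 := by
        have e5 : ((4 : ℝ) ^ r) ^ 12 = (4096 ^ r) ^ 2 := by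
          rw [← pow_mul, ← pow_mul, show (4096 : ℝ) = 4 ^ 6 by norm_num, ← pow_mul]
          congr 1
          ring
        rw [e5]
        generalize (4096 : ℝ) ^ r = Λ at hΛ ⊢
        field_simp
        ring
      rw [e] at hw
      have hw2 : (k : ℝ) ^ 12 ≤ (1920 * (4 : ℝ) ^ r) ^ 12 := by
        refine hw.trans ?_
        rw [mul_pow]
        gcongr
        norm_num
      have hw3 : (k : ℝ) ≤ 1920 * (4 : ℝ) ^ r := by
        by_contra hc
        push Not at hc
        have := pow_lt_pow_left₀ hc (by positivity) (n := 12) (by norm_num)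
        linarith
      have hw4 : k ≤ 1920 * 4 ^ r := by exact_mod_cast hw3
      omega
    · omega

/-- the whole chain is covered by three runs -/
theorem chain_bound {m : ℕ} {D x f : ℕ → ℝ} (h : Str m D x) (hf : Sol m D x f) (f0 : 0 ≤ f 0) (f1 : 0 < f 1)
    (hdown : ∀ i j, i < j → j + 1 ≤ m → 0 < f i → f (i + 1) ≤ 0 → 0 < f j → f (j + 1) ≤ 0 → False)
    {r : ℕ} (hT : tm D m ≤ 4096 ^ r) : m ≤ 3000 * 4 ^ r + 3 := by
  classical
  rcases Nat.eq_zero_or_pos m with hm | hm
  · omega
  have hfn : Sol m D x (fun j => - f j) := by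
    intro j hj
    have := hf j hj
    show _ * - f (j + 1) = D (j + 1) * - f j + D j * - f (j + 2)
    linarith
  have hrun : ∀ a b, a ≤ b → b ≤ m → 0 ≤ f a → 0 ≤ f b → (∀ j, a < j → j < b → 0 < f j) → b ≤ a + 1000 * 4 ^ r := by
    intro a b h1 h2 h3 h4 h5
    refine run_bound h hf r a b h1 h2 h3 h4 h5 ?_
    have e1 := tm_mono h h2 le_rfl
    have e2 : 0 ≤ tm D a := by
      have := tm_mono h (Nat.zero_le a) (by omega)
      have e0 : tm D 0 = 0 := by simp [tm]
      linarith
    linarith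
  have hrunn : ∀ a b, a ≤ b → b ≤ m → f a ≤ 0 → f b ≤ 0 → (∀ j, a < j → j < b → f j < 0) → b ≤ a + 1000 * 4 ^ r := by
    intro a b h1 h2 h3 h4 h5
    refine run_bound h hfn r a b h1 h2 (by simpa using h3) (by simpa using h4) (fun j h6 h7 => by
      simpa using h5 j h6 h7) ?_
    have e1 := tm_mono h h2 le_rfl
    have e2 : 0 ≤ tm D a := by
      have := tm_mono h (Nat.zero_le a) (by omega)
      have e0 : tm D 0 = 0 := by simp [tm]
      linarith
    linarith
  have hex1 : ∃ j, 1 ≤ j ∧ (f j ≤ 0 ∨ m ≤ j) := ⟨m, hm, Or.inr le_rfl⟩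
  obtain ⟨i1, hi1, hmin1⟩ : ∃ i1, (1 ≤ i1 ∧ (f i1 ≤ 0 ∨ m ≤ i1)) ∧ ∀ j, j < i1 → ¬ (1 ≤ j ∧ (f j ≤ 0 ∨ m ≤ j)) :=
    ⟨Nat.find hex1, Nat.find_spec hex1, fun j hj => Nat.find_min hex1 hj⟩
  have hi1m : i1 ≤ m := by
    by_contra hc
    exact hmin1 m (by omega) ⟨hm, Or.inr le_rfl⟩
  have pos1 : ∀ j, 1 ≤ j → j < i1 → 0 < f j := by
    intro j h1 h2
    by_contra hc
    exact hmin1 j h2 ⟨h1, Or.inl (not_lt.1 hc)⟩
  rcases lt_or_ge 0 (f i1) with hp | hn
  · -- `i1 = m`
    have : i1 = m := by
      rcases hi1.2 with h1 | h1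
      · linarith
      · omega
    subst this
    have := hrun 0 i1 (Nat.zero_le _) le_rfl f0 hp.le (fun j h1 h2 => pos1 j h1 h2)
    omega
  have hi2 : 2 ≤ i1 := by
    rcases hi1.1.eq_or_lt with h1 | h1
    · rw [← h1] at hn; linarith
    · exact h1
  have r1 := hrun 0 (i1 - 1) (Nat.zero_le _) (by omega) f0 (pos1 _ (by omega) (by omega)).le
    (fun j h1 h2 => pos1 j h1 (by omega))
  rcases hi1m.eq_or_lt with hEq | hlt
  · omega
  have hex2 : ∃ j, i1 < j ∧ (0 ≤ f j ∨ m ≤ j) := ⟨m, hlt, Or.inr le_rfl⟩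
  obtain ⟨b, hb, hmin2⟩ : ∃ b, (i1 < b ∧ (0 ≤ f b ∨ m ≤ b)) ∧ ∀ j, j < b → ¬ (i1 < j ∧ (0 ≤ f j ∨ m ≤ j)) :=
    ⟨Nat.find hex2, Nat.find_spec hex2, fun j hj => Nat.find_min hex2 hj⟩
  have hbm : b ≤ m := by
    by_contra hc
    exact hmin2 m (by omega) ⟨hlt, Or.inr le_rfl⟩
  have neg2 : ∀ j, i1 < j → j < b → f j < 0 := by
    intro j h1 h2
    by_contra hc
    exact hmin2 j h2 ⟨h1, Or.inl (not_lt.1 hc)⟩
  have hb1 : f (b - 1) ≤ 0 := by
    rcases Nat.lt_or_ge i1 (b - 1) with h1 | h1
    · exact (neg2 _ h1 (by omega)).le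
    · rw [show b - 1 = i1 by omega]; exact hn
  have r2 := hrunn i1 (b - 1) (by omega) (by omega) hn hb1 (fun j h1 h2 => neg2 j h1 (by omega))
  rcases lt_or_ge (f b) 0 with hbn | hbp
  · have : b = m := by
      rcases hb.2 with h1 | h1
      · linarith
      · omega
    omega
  -- third run
  have hcross1 : 0 < f (i1 - 1) := pos1 _ (by omega) (by omega)
  have hi1c : f (i1 - 1 + 1) ≤ 0 := by rw [show i1 - 1 + 1 = i1 by omega]; exact hn
  have pos3 : ∀ j, b < j → j ≤ m → 0 < f j := by
    intro j hj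
    induction j, hj using Nat.le_induction with
    | base =>
      intro hjm
      by_contra hc
      push Not at hc
      rcases hbp.eq_or_lt with h0 | h0
      · -- `f b = 0`
        have hfb1 : f (b - 1) < 0 := by
          rcases Nat.lt_or_ge i1 (b - 1) with h1 | h1
          · exact neg2 _ h1 (by omega)
          · have e : b - 1 = i1 := by omega
            rw [e]
            rcases hn.eq_or_lt with h2 | h2
            · exfalso
              have hS := hf (i1 - 1) (by omega)
              rw [show i1 - 1 + 1 = i1 by omega, show i1 - 1 + 2 = b by omega, h2, ← h0] at hS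
              have hD := h.D1 i1 (by omega)
              have : 0 < D i1 * f (i1 - 1) := by positivity
              linarith
            · exact h2
        have hS := hf (b - 1) (by omega)
        rw [show b - 1 + 1 = b by omega, show b - 1 + 2 = b + 1 by omega, ← h0] at hS
        have hD := h.D1 b (by omega)
        have hD' := h.D1 (b - 1) (by omega)
        have h3 : D b * f (b - 1) < 0 := mul_neg_of_pos_of_neg (by linarith) hfb1
        have h4 : D (b - 1) * f (b + 1) ≤ 0 := mul_nonpos_of_nonneg_of_nonpos (by linarith) hc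
        linarith
      · exact hdown (i1 - 1) b (by omega) hjm hcross1 hi1c h0 hc
    | succ j hj ih =>
      intro hjm
      have h0 := ih (by omega)
      by_contra hc
      push Not at hc
      exact hdown (i1 - 1) j (by omega) hjm hcross1 hi1c h0 hc
  have hfm : 0 ≤ f m := by
    rcases hbm.eq_or_lt with h1 | h1
    · rw [← h1]; exact hbp
    · exact (pos3 m h1 le_rfl).le
  have r3 := hrun b m hbm le_rfl hbp hfm (fun j h1 h2 => pos3 j h1 h2.le)
  omega

end MP0e5907LB
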