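import Pool.Agent.Lib_MP_0e5907_lb.Model

/-!
# MP_0e5907, lower bound - from a realization to a chain; the final theorem
-/

namespace MP0e5907LB

open Finset MeasureTheory

theorem dot3_sub (b u v : Fin 3 → ℝ) : dot3 b (fun t => u t - v t) = dot3 b u - dot3 b v := by
  simp only [dot3]
  ring

/-- the hull in coordinates -/
def chull {n : ℕ} (y : Fin n → E3) : Set (Fin 3 → ℝ) := (WithLp.toLp 2) ⁻¹' (hull y)

theorem hull_compact {n : ℕ} (y : Fin n → E3) : IsCompact (hull y) := (Set.finite_range y).isCompact_convexHull ℝ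

theorem chull_volume {n : ℕ} (y : Fin n → E3) : volume (chull y) = volume (hull y) :=
  (PiLp.volume_preserving_toLp (Fin 3)).measure_preimage (hull_compact y).measurableSet.nullMeasurableSet

theorem chull_convex {n : ℕ} (y : Fin n → E3) : Convex ℝ (chull y) := by
  intro u hu v hv a b ha hb hab
  have := (convex_convexHull ℝ (Set.range y)) hu hv ha hb hab
  exact this

/-- volume bound in the grid -/
theorem volume_le_cube {n : ℕ} (y : Fin n → E3) {G : ℝ} (hG : 0 ≤ G) (h : ∀ i j, 0 ≤ y i j ∧ y i j ≤ G) :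
    (volume (hull y)).toReal ≤ G ^ 3 := by
  rw [← chull_volume]
  have hsub : chull y ⊆ Set.Icc (fun _ => 0) (fun _ => G) := by
    have h1 : hull y ⊆ {z : E3 | ∀ j, z j ∈ Set.Icc 0 G} := by
      refine convexHull_min ?_ ?_
      · rintro _ ⟨i, rfl⟩ j
        exact h i j
      · intro u hu v hv a b ha hb hab j
        exact (convex_Icc (0 : ℝ) G) (hu j) (hv j) ha hb hab
    intro v hv
    have h2 := h1 hv
    rw [Set.mem_Icc]
    exact ⟨fun j => (h2 j).1, fun j => (h2 j).2⟩
  have hle := measure_mono (μ := volume) hsub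
  rw [Real.volume_Icc_pi] at hle
  simp only [sub_zero, Finset.prod_const, Finset.card_univ, Fintype.card_fin] at hle
  rw [← ENNReal.ofReal_pow hG] at hle
  exact ENNReal.toReal_le_of_le_ofReal (by positivity) hle

theorem realization_bound {m : ℕ} (hm : 4 ≤ m) {θ : ℝ} (h0 : 0 < θ) (hθ : (m : ℝ) * θ ≤ 1) {y : Fin (m + 3) → E3}
    (hy : IsPolytope y) (hT : SameType (model m θ) y) (hint : ∀ i j, ∃ k : ℤ, y i j = k) :
    ((m + 3 : ℕ) : ℝ) ^ 6 ≤ 500000000 ^ 3 * (volume (hull y)).toReal := by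
  have hmod := model_polytope (m := m) (θ := θ) (by omega) h0 hθ
  have hθ1 : θ ≤ 1 := by
    have : (1 : ℝ) ≤ m := by exact_mod_cast (show 1 ≤ m by omega)
    nlinarith
  have hpi := Real.pi_gt_three
  have hC : 0 < Real.cos θ := Real.cos_pos_of_mem_Ioo ⟨by linarith, by linarith⟩
  obtain ⟨σ, hσ⟩ := exists_transfer hmod.convexIndependent hy.convexIndependent hT
  -- the functionals
  have hfun : ∀ j, ∃ (b : Fin 3 → ℝ) (d : ℝ), 1 ≤ j → j < m → ∀ i : Fin (m + 3),
      dot3 b (fun t => y (σ i) t) ≤ d ∧ (dot3 b (fun t => y (σ i) t) = d ↔ dot3 (lf θ j) (pt θ i) = 1 + Real.cos θ) := by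
    intro j
    by_cases hj : 1 ≤ j ∧ j < m
    · have hle : ∀ i : Fin (m + 3), dot3 (lf θ j) (fun t => model m θ i t) ≤ 1 + Real.cos θ := by
        intro i
        rw [model_coord]
        obtain ⟨i, hi⟩ := i
        match i, hi with
        | 0, hi =>
          show dot3 (lf θ j) (pt θ 0) ≤ _
          rw [lf_zero]
          rcases neg_one_pow_eq_or ℝ j with h3 | h3
          · rw [h3]; linarith
          · rw [h3]; linarith
        | 1, hi =>
          show dot3 (lf θ j) (pt θ 1) ≤ _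
          rw [lf_one]
          rcases neg_one_pow_eq_or ℝ j with h3 | h3
          · rw [h3]; linarith
          · rw [h3]; linarith
        | (i + 2), hi =>
          show dot3 (lf θ j) (pt θ (i + 2)) ≤ _
          by_cases h1 : j + 1 < i ∨ i + 1 < j
          · exact (lf_far h0 hθ (by omega) (by omega) h1).le
          · exact (lf_near θ (by omega) (by omega)).le
      have hex : ∃ i : Fin (m + 3), dot3 (lf θ j) (fun t => model m θ i t) = 1 + Real.cos θ := by
        refine ⟨⟨j + 2, by omega⟩, ?_⟩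
        rw [model_coord]
        exact lf_near θ (by omega) (by omega)
      obtain ⟨b, d, hbd⟩ := hσ _ _ hle hex
      exact ⟨b, d, fun _ _ => hbd⟩
    · exact ⟨0, 0, fun h1 h2 => absurd ⟨h1, h2⟩ hj⟩
  choose b d hbd using hfun
  set Y : Fin (m + 3) → Fin 3 → ℝ := fun i t => y (σ i) t with hY
  set N : Fin 3 → ℝ := Y ⟨0, by omega⟩ with hN
  set S : Fin 3 → ℝ := Y ⟨1, by omega⟩ with hS
  set Q : ℕ → Fin 3 → ℝ := fun i => Y ⟨min i m + 2, by omega⟩ with hQ
  -- the chain
  have nearQ : ∀ j i, 1 ≤ j → j < m → i ≤ j + 1 → j ≤ i + 1 → dot3 (b j) (Q i) = d j := by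
    intro j i h1 h2 h3 h4
    refine ((hbd j h1 h2 ⟨min i m + 2, by omega⟩).2).2 ?_
    show dot3 (lf θ j) (pt θ (min i m + 2)) = _
    rw [show min i m = i by omega]
    exact lf_near θ h3 h4
  have farQ : ∀ j i, 1 ≤ j → j < m → i ≤ m → (j + 1 < i ∨ i + 1 < j) → dot3 (b j) (Q i) < d j := by
    intro j i h1 h2 h3 h4
    have h5 := hbd j h1 h2 ⟨min i m + 2, by omega⟩
    refine lt_of_le_of_ne h5.1 fun he => ?_
    have h6 := h5.2.1 he
    have h7 : dot3 (lf θ j) (pt θ (min i m + 2)) = 1 + Real.cos θ := h6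
    rw [show min i m = i by omega] at h7
    exact absurd h7 (lf_far h0 hθ (by omega) h3 h4).ne
  have evenS : ∀ j, 1 ≤ j → j < m → Even j → dot3 (b j) S = d j ∧ dot3 (b j) N < d j := by
    intro j h1 h2 h3
    constructor
    · refine ((hbd j h1 h2 ⟨1, by omega⟩).2).2 ?_
      show dot3 (lf θ j) (pt θ 1) = _
      rw [lf_one, h3.neg_one_pow, one_mul]
    · have h5 := hbd j h1 h2 ⟨0, by omega⟩
      refine lt_of_le_of_ne h5.1 fun he => ?_
      have h7 : dot3 (lf θ j) (pt θ 0) = 1 + Real.cos θ := h5.2.1 he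
      rw [lf_zero, h3.neg_one_pow] at h7
      linarith
  have oddN : ∀ j, 1 ≤ j → j < m → ¬ Even j → dot3 (b j) N = d j ∧ dot3 (b j) S < d j := by
    intro j h1 h2 h3
    rw [Nat.not_even_iff_odd] at h3
    constructor
    · refine ((hbd j h1 h2 ⟨0, by omega⟩).2).2 ?_
      show dot3 (lf θ j) (pt θ 0) = _
      rw [lf_zero, h3.neg_one_pow, neg_neg, one_mul]
    · have h5 := hbd j h1 h2 ⟨1, by omega⟩
      refine lt_of_le_of_ne h5.1 fun he => ?_
      have h7 : dot3 (lf θ j) (pt θ 1) = 1 + Real.cos θ := h5.2.1 he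
      rw [lf_one, h3.neg_one_pow] at h7
      linarith
  have hchain : Chain m (fun t => S t - N t) (fun i t => Q i t - N t) b := by
    constructor
    · intro j i h1 h2 h3 h4
      rw [dot3_sub, dot3_sub, nearQ j i h1 h2 h3 h4]
      unfold ev
      by_cases h5 : Even j
      · rw [if_pos h5, (evenS j h1 h2 h5).1, one_mul]
      · rw [if_neg h5, (oddN j h1 h2 h5).1]
        ring
    · intro j i h1 h2 h3 h4
      rw [dot3_sub, dot3_sub]
      have h6 := farQ j i h1 h2 h3 h4
      unfold ev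
      by_cases h5 : Even j
      · rw [if_pos h5, (evenS j h1 h2 h5).1]
        linarith
      · rw [if_neg h5, (oddN j h1 h2 h5).1]
        linarith
    · intro j h1 h2 h3
      rw [dot3_sub]
      have := oddN j h1 h2 h3
      linarith [this.1, this.2]
    · intro j h1 h2 h3
      rw [dot3_sub]
      have := evenS j h1 h2 h3
      linarith [this.1, this.2]
    · intro i j
      obtain ⟨k1, hk1⟩ := hint (σ ⟨min i m + 2, by omega⟩) j
      obtain ⟨k2, hk2⟩ := hint (σ ⟨0, by omega⟩) j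
      exact ⟨k1 - k2, by push_cast; rw [← hk1, ← hk2]⟩
    · intro j
      obtain ⟨k1, hk1⟩ := hint (σ ⟨1, by omega⟩) j
      obtain ⟨k2, hk2⟩ := hint (σ ⟨0, by omega⟩) j
      exact ⟨k1 - k2, by push_cast; rw [← hk1, ← hk2]⟩
  -- the convex set
  have hYmem : ∀ i, Y i ∈ chull y := fun i => mem_hull y (σ i)
  have hfin : volume (hull y) ≠ ⊤ := (hull_compact y).measure_lt_top.ne
  refine hchain.bound hm (H := (fun v => v + N) ⁻¹' chull y) ?_ ?_ ?_ ?_ ?_ ENNReal.toReal_nonneg
  · intro u hu v hv α β ha hb hab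
    have := (chull_convex y) hu hv ha hb hab
    rw [Set.mem_preimage]
    convert this using 1
    rw [smul_add, smul_add]
    have e : N = α • N + β • N := by rw [← add_smul, hab, one_smul]
    nth_rewrite 1 [e]
    abel
  · rw [Set.mem_preimage, zero_add]
    exact hYmem _
  · intro i _
    rw [Set.mem_preimage]
    have e : (fun t => Q i t - N t) + N = Q i := by
      funext t
      simp
    rw [e]
    exact hYmem _
  · rw [Set.mem_preimage]
    have e : (fun t => S t - N t) + N = S := by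
      funext t
      simp
    rw [e]
    exact hYmem _
  · rw [measure_preimage_add_right, chull_volume, ENNReal.ofReal_toReal hfin]

/-- the final theorem -/
theorem main_theorem : ∃ c : ℝ, 0 < c ∧ ∀ n : ℕ, 7 ≤ n → ∃ x : Fin n → E3, IsPolytope x ∧
    ∀ y : Fin n → E3, IsPolytope y → SameType x y → (∀ i j, ∃ k : ℤ, y i j = k) →
      c * (n : ℝ) ^ 6 ≤ (volume (hull y)).toReal ∧
      ∀ G : ℕ, (∀ i j, 0 ≤ y i j ∧ y i j ≤ G) → c * (n : ℝ) ^ 2 ≤ G := by
  refine ⟨1 / 500000000 ^ 3, by positivity, fun n hn => ?_⟩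
  obtain ⟨m, rfl⟩ : ∃ m, n = m + 3 := ⟨n - 3, by omega⟩
  have hm : 4 ≤ m := by omega
  have hm0 : (0 : ℝ) < m := by exact_mod_cast (show 0 < m by omega)
  have hθ : (m : ℝ) * (1 / m) ≤ 1 := by
    rw [mul_one_div_cancel hm0.ne']
  refine ⟨model m (1 / m), model_polytope (by omega) (by positivity) hθ, ?_⟩
  intro y hy hT hint
  have hb := realization_bound hm (by positivity) hθ hy hT hint
  refine ⟨?_, ?_⟩
  · rw [one_div, inv_mul_le_iff₀ (by positivity)]
    exact hb
  · intro G hG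
    have hcube := volume_le_cube y (G := (G : ℝ)) (by positivity) hG
    have h1 : (((m + 3 : ℕ) : ℝ) ^ 2) ^ 3 ≤ (500000000 * (G : ℝ)) ^ 3 := by
      calc (((m + 3 : ℕ) : ℝ) ^ 2) ^ 3 = ((m + 3 : ℕ) : ℝ) ^ 6 := by ring
        _ ≤ 500000000 ^ 3 * (volume (hull y)).toReal := hb
        _ ≤ 500000000 ^ 3 * (G : ℝ) ^ 3 := by gcongr
        _ = _ := by ring
    have h2 : ((m + 3 : ℕ) : ℝ) ^ 2 ≤ 500000000 * (G : ℝ) := by
      by_contra hc
      push Not at hc
      have := pow_lt_pow_left₀ hc (by positivity) (n := 3) (by norm_num)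
      linarith
    have hG0 : (0 : ℝ) ≤ G := by positivity
    rw [one_div, inv_mul_le_iff₀ (by positivity)]
    calc ((m + 3 : ℕ) : ℝ) ^ 2 ≤ 500000000 * (G : ℝ) := h2
      _ ≤ 500000000 ^ 3 * G := by gcongr; norm_num

end MP0e5907LB
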