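import Pool.Agent.Lib_MP_0e5907_lb.Defs

/-!
# MP_0e5907, lower bound - an isomorphism of face lattices is a relabelling of the vertices
-/

namespace MP0e5907LB

open Finset

theorem exists_coef (l : StrongDual ℝ E3) : ∃ a : Fin 3 → ℝ, ∀ y : E3, l y = dot3 a (fun j => y j) := by
  refine ⟨fun j => l (EuclideanSpace.single j 1), fun y => ?_⟩
  have h2 : y = ∑ j, y j • (EuclideanSpace.single j (1 : ℝ) : E3) := by
    ext i
    simp [Pi.single_apply]
  conv_lhs => rw [h2]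
  rw [map_sum, Fin.sum_univ_three]
  simp only [map_smul, smul_eq_mul, dot3]
  ring

theorem exists_lin (a : Fin 3 → ℝ) : ∃ l : StrongDual ℝ E3, ∀ y : E3, l y = dot3 a (fun j => y j) := by
  refine ⟨∑ j, a j • (EuclideanSpace.proj j : E3 →L[ℝ] ℝ), fun y => ?_⟩
  simp [Fin.sum_univ_three, dot3]

theorem mem_hull {n : ℕ} (x : Fin n → E3) (i : Fin n) : x i ∈ hull x :=
  subset_convexHull ℝ _ (Set.mem_range_self i)

theorem hull_le {n : ℕ} {x : Fin n → E3} {l : StrongDual ℝ E3} {c : ℝ} (h : ∀ i, l (x i) ≤ c) : ∀ z ∈ hull x, l z ≤ c := by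
  intro z hz
  refine convexHull_min (s := Set.range x) (t := {y | l y ≤ c}) ?_
    (convex_halfSpace_le l.toLinearMap.isLinear c) hz
  rintro _ ⟨i, rfl⟩
  exact h i

theorem exists_vertex {n : ℕ} {x : Fin n → E3} {F : Set E3} (hF : IsExposed ℝ (hull x) F) (hne : F.Nonempty) :
    ∃ k, x k ∈ F := by
  obtain ⟨l, hl⟩ := hF hne
  obtain ⟨z, hz⟩ := hne
  have hz' : z ∈ hull x ∧ ∀ w ∈ hull x, l w ≤ l z := by
    rw [hl] at hz
    exact hz
  by_contra hc
  push Not at hc
  have h1 : ∀ k, l (x k) < l z := by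
    intro k
    by_contra hk
    push Not at hk
    apply hc k
    rw [hl]
    exact ⟨mem_hull x k, fun w hw => (hz'.2 w hw).trans hk⟩
  have h2 : z ∈ {y : E3 | l y < l z} := by
    refine convexHull_min (s := Set.range x) (t := {y | l y < l z}) ?_
      (convex_halfSpace_lt l.toLinearMap.isLinear _) hz'.1
    rintro _ ⟨i, rfl⟩
    exact h1 i
  exact lt_irrefl (l z) h2

/-- the vertices are exposed -/
theorem vertex_exposed {n : ℕ} {x : Fin n → E3} (hx : ConvexIndependent ℝ x) (i : Fin n) :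
    IsExposed ℝ (hull x) {x i} := by
  have hn : x i ∉ convexHull ℝ (x '' {j | j ≠ i}) := by
    intro h
    exact (hx {j | j ≠ i} i h) rfl
  have hfin : (x '' {j | j ≠ i}).Finite := Set.toFinite _
  obtain ⟨f, u, h1, h2⟩ := geometric_hahn_banach_closed_point (convex_convexHull ℝ _)
    (hfin.isClosed_convexHull (𝕜 := ℝ)) hn
  have h3 : ∀ k, k ≠ i → f (x k) < f (x i) := fun k hk => (h1 _ (subset_convexHull ℝ _ ⟨k, hk, rfl⟩)).trans h2
  have h4 : ∀ k, f (x k) ≤ f (x i) := by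
    intro k
    by_cases hk : k = i
    · rw [hk]
    · exact (h3 k hk).le
  intro _
  refine ⟨f, ?_⟩
  ext z
  constructor
  · intro hz
    rw [Set.mem_singleton_iff] at hz
    subst hz
    exact ⟨mem_hull x i, hull_le h4⟩
  · rintro ⟨hz, hmax⟩
    rw [Set.mem_singleton_iff]
    have hz2 : f z = f (x i) := le_antisymm (hull_le h4 z hz) (hmax _ (mem_hull x i))
    obtain ⟨ι, _, w, p, hw0, hw1, hp, rfl⟩ := mem_convexHull_iff_exists_fintype.1 hz
    have h5 : ∀ k, p k ∈ hull x := fun k => subset_convexHull ℝ _ (hp k)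
    have h6 : ∑ k, w k * (f (x i) - f (p k)) = 0 := by
      have h7 : ∑ k, w k * (f (x i) - f (p k)) = (∑ k, w k) * f (x i) - f (∑ k, w k • p k) := by
        rw [map_sum, Finset.sum_mul, ← Finset.sum_sub_distrib]
        refine Finset.sum_congr rfl fun k _ => ?_
        rw [map_smul, smul_eq_mul]
        ring
      rw [h7, hw1, hz2]
      ring
    have h8 : ∀ k, w k • p k = w k • x i := by
      intro k
      have h9 := (Finset.sum_eq_zero_iff_of_nonneg (fun k _ =>
        mul_nonneg (hw0 k) (sub_nonneg.2 (hull_le h4 _ (h5 k))))).1 h6 k (Finset.mem_univ k)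
      rcases mul_eq_zero.1 h9 with h | h
      · rw [h, zero_smul, zero_smul]
      · obtain ⟨j, hj⟩ := hp k
        by_cases hji : j = i
        · rw [← hj, hji]
        · have := h3 j hji
          rw [hj] at this
          linarith
    rw [Finset.sum_congr rfl fun k _ => h8 k, ← Finset.sum_smul, hw1, one_smul]

theorem exists_label {n : ℕ} {x y : Fin n → E3} (hx : ConvexIndependent ℝ x) (hy : ConvexIndependent ℝ y)
    (h : SameType x y) : ∃ σ : Fin n → Fin n, ∀ F : Set E3, IsExposed ℝ (hull x) F →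
      ∃ F' : Set E3, IsExposed ℝ (hull y) F' ∧ ∀ i, (x i ∈ F ↔ y (σ i) ∈ F') := by
  obtain ⟨e⟩ := h
  have nonemp : ∀ F : FaceLattice x, F.1.Nonempty → (e F).1.Nonempty := by
    intro F hF
    by_contra hc
    rw [Set.not_nonempty_iff_eq_empty] at hc
    have hE : IsExposed ℝ (hull x) (∅ : Set E3) := fun h => absurd h Set.not_nonempty_empty
    have h1 : e F ≤ e ⟨∅, hE⟩ := by
      show (e F).1 ⊆ _
      rw [hc]
      exact Set.empty_subset _
    have h2 : F.1 ⊆ ∅ := e.le_iff_le.1 h1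
    exact Set.not_nonempty_empty (hF.mono h2)
  have nonemp' : ∀ F : FaceLattice y, F.1.Nonempty → (e.symm F).1.Nonempty := by
    intro F hF
    by_contra hc
    rw [Set.not_nonempty_iff_eq_empty] at hc
    have hE : IsExposed ℝ (hull y) (∅ : Set E3) := fun h => absurd h Set.not_nonempty_empty
    have h1 : e.symm F ≤ e.symm ⟨∅, hE⟩ := by
      show (e.symm F).1 ⊆ _
      rw [hc]
      exact Set.empty_subset _
    have h2 : F.1 ⊆ ∅ := e.symm.le_iff_le.1 h1
    exact Set.not_nonempty_empty (hF.mono h2)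
  have key : ∀ i, ∃ k, e ⟨{x i}, vertex_exposed hx i⟩ = ⟨{y k}, vertex_exposed hy k⟩ := by
    intro i
    obtain ⟨k, hk⟩ := exists_vertex (e ⟨{x i}, vertex_exposed hx i⟩).2 (nonemp _ (Set.singleton_nonempty _))
    refine ⟨k, ?_⟩
    have h1 : (⟨{y k}, vertex_exposed hy k⟩ : FaceLattice y) ≤ e ⟨{x i}, vertex_exposed hx i⟩ := by
      show ({y k} : Set E3) ⊆ _
      rw [Set.singleton_subset_iff]
      exact hk
    have h2 : e.symm ⟨{y k}, vertex_exposed hy k⟩ ≤ ⟨{x i}, vertex_exposed hx i⟩ := by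
      rw [← e.symm_apply_apply ⟨{x i}, vertex_exposed hx i⟩]
      exact e.symm.le_iff_le.2 h1
    have h3 : (e.symm ⟨{y k}, vertex_exposed hy k⟩).1 = {x i} := by
      have h4 : (e.symm ⟨{y k}, vertex_exposed hy k⟩).1 ⊆ {x i} := h2
      rcases Set.subset_singleton_iff_eq.1 h4 with h5 | h5
      · have := nonemp' ⟨{y k}, vertex_exposed hy k⟩ (Set.singleton_nonempty _)
        rw [h5] at this
        exact absurd this Set.not_nonempty_empty
      · exact h5
    have h6 : e.symm ⟨{y k}, vertex_exposed hy k⟩ = ⟨{x i}, vertex_exposed hx i⟩ := Subtype.ext h3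
    rw [← h6, e.apply_symm_apply]
  choose σ hσ using key
  refine ⟨σ, fun F hF => ⟨(e ⟨F, hF⟩).1, (e ⟨F, hF⟩).2, fun i => ?_⟩⟩
  have h1 : (⟨{x i}, vertex_exposed hx i⟩ : FaceLattice x) ≤ ⟨F, hF⟩ ↔ x i ∈ F := Set.singleton_subset_iff
  have h2 : (⟨{y (σ i)}, vertex_exposed hy (σ i)⟩ : FaceLattice y) ≤ e ⟨F, hF⟩ ↔ y (σ i) ∈ (e ⟨F, hF⟩).1 :=
    Set.singleton_subset_iff
  rw [← h1, ← h2, ← hσ i, e.le_iff_le]

/-- supporting planes are transferred -/
theorem exists_transfer {n : ℕ} {x y : Fin n → E3} (hx : ConvexIndependent ℝ x) (hy : ConvexIndependent ℝ y)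
    (h : SameType x y) : ∃ σ : Fin n → Fin n, ∀ (a : Fin 3 → ℝ) (c : ℝ), (∀ i, dot3 a (fun j => x i j) ≤ c) →
      (∃ i, dot3 a (fun j => x i j) = c) → ∃ (b : Fin 3 → ℝ) (d : ℝ), ∀ i, dot3 b (fun j => y (σ i) j) ≤ d ∧
        (dot3 b (fun j => y (σ i) j) = d ↔ dot3 a (fun j => x i j) = c) := by
  obtain ⟨σ, hσ⟩ := exists_label hx hy h
  refine ⟨σ, ?_⟩
  rintro a c ha ⟨i0, hi0⟩
  obtain ⟨l, hl⟩ := exists_lin a
  have hle : ∀ i, l (x i) ≤ c := fun i => by rw [hl]; exact ha i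
  have h0 : l (x i0) = c := by rw [hl]; exact hi0
  have hF : IsExposed ℝ (hull x) {z ∈ hull x | ∀ w ∈ hull x, l w ≤ l z} := fun _ => ⟨l, rfl⟩
  obtain ⟨F', hF', hiff⟩ := hσ _ hF
  have hmem : ∀ i, x i ∈ {z ∈ hull x | ∀ w ∈ hull x, l w ≤ l z} ↔ dot3 a (fun j => x i j) = c := by
    intro i
    rw [← hl]
    constructor
    · rintro ⟨-, h2⟩
      have := h2 _ (mem_hull x i0)
      rw [h0] at this
      exact le_antisymm (hle i) this
    · intro h2
      refine ⟨mem_hull x i, fun w hw => ?_⟩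
      rw [h2]
      exact hull_le hle w hw
  have hy0 : y (σ i0) ∈ F' := (hiff i0).1 ((hmem i0).2 hi0)
  obtain ⟨l', hl'⟩ := hF' ⟨_, hy0⟩
  obtain ⟨b, hb⟩ := exists_coef l'
  have hy0' : ∀ w ∈ hull y, l' w ≤ l' (y (σ i0)) := by
    rw [hl'] at hy0
    exact hy0.2
  refine ⟨b, l' (y (σ i0)), fun i => ?_⟩
  rw [← hb, ← hmem, hiff]
  refine ⟨hy0' _ (mem_hull y _), ?_⟩
  constructor
  · intro h2
    rw [hl']
    refine ⟨mem_hull y _, fun w hw => ?_⟩
    rw [h2]
    exact hy0' w hw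
  · intro h2
    rw [hl'] at h2
    exact le_antisymm (hy0' _ (mem_hull y _)) (h2.2 _ (mem_hull y _))

theorem convexIndependent_of_exposed {n : ℕ} {x : Fin n → E3}
    (h : ∀ i, ∃ a : Fin 3 → ℝ, ∀ k, k ≠ i → dot3 a (fun j => x k j) < dot3 a (fun j => x i j)) :
    ConvexIndependent ℝ x := by
  intro s i hi
  by_contra hn
  obtain ⟨a, ha⟩ := h i
  obtain ⟨l, hl⟩ := exists_lin a
  have hc : Convex ℝ {y : E3 | l y < l (x i)} := convex_halfSpace_lt l.toLinearMap.isLinear _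
  have hsub : x '' s ⊆ {y : E3 | l y < l (x i)} := by
    rintro _ ⟨j, hj, rfl⟩
    change l (x j) < l (x i)
    rw [hl, hl]
    exact ha j (fun he => hn (he ▸ hj))
  have h2 : l (x i) < l (x i) := convexHull_min hsub hc hi
  exact lt_irrefl _ h2

theorem span_of_functional {n : ℕ} {x : Fin n → E3} (v0 : Fin n)
    (h : ∀ (a : Fin 3 → ℝ) (c : ℝ), (∀ i, dot3 a (fun j => x i j) = c) → a = 0) :
    affineSpan ℝ (Set.range x) = ⊤ := by
  by_contra hne
  have hd : vectorSpan ℝ (Set.range x) ≠ ⊤ := by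
    intro h
    apply hne
    rw [← direction_affineSpan] at h
    exact (AffineSubspace.direction_eq_top_iff_of_nonempty (s := affineSpan ℝ (Set.range x))
      ⟨x v0, subset_affineSpan ℝ _ (Set.mem_range_self v0)⟩).1 h
  obtain ⟨f, hf0, hf⟩ := Submodule.exists_le_ker_of_lt_top _ (lt_top_iff_ne_top.2 hd)
  obtain ⟨a, ha⟩ := exists_coef (LinearMap.toContinuousLinearMap f)
  have ha' : ∀ y : E3, f y = dot3 a (fun j => y j) := ha
  have h1 : a = 0 := by
    refine h a (f (x v0)) fun v => ?_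
    have h2 : x v -ᵥ x v0 ∈ vectorSpan ℝ (Set.range x) :=
      vsub_mem_vectorSpan ℝ (Set.mem_range_self v) (Set.mem_range_self v0)
    have h3 := hf h2
    rw [LinearMap.mem_ker, vsub_eq_sub, map_sub, sub_eq_zero] at h3
    rw [← h3, ha' (x v)]
  apply hf0
  ext y
  rw [ha' y, h1]
  simp [dot3]

end MP0e5907LB
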