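import Pool.Agent.Lib_MP_0e5907_lb.Label

/-!
# MP_0e5907, lower bound - the model: a part of a trapezohedron

Vertices: `0 ↦ (0,0,1+C)`, `1 ↦ (0,0,-(1+C))`, `k+2 ↦ (cos kθ, sin kθ, (-1)^k (1-C))`, `C = cos θ`.
-/

namespace MP0e5907LB

open Finset

/-- the vertices of the model -/
noncomputable def pt (θ : ℝ) : ℕ → Fin 3 → ℝ
  | 0 => ![0, 0, 1 + Real.cos θ]
  | 1 => ![0, 0, -(1 + Real.cos θ)]
  | (k + 2) => ![Real.cos (k * θ), Real.sin (k * θ), (-1) ^ k * (1 - Real.cos θ)]

/-- the facet functionals -/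
noncomputable def lf (θ : ℝ) (j : ℕ) : Fin 3 → ℝ := ![2 * Real.cos (j * θ), 2 * Real.sin (j * θ), -(-1) ^ j]

theorem lf_zero (θ : ℝ) (j : ℕ) : dot3 (lf θ j) (pt θ 0) = -(-1) ^ j * (1 + Real.cos θ) := by
  simp only [dot3, lf, pt, Matrix.cons_val_zero, Matrix.cons_val_one, Matrix.cons_val]
  ring

theorem lf_one (θ : ℝ) (j : ℕ) : dot3 (lf θ j) (pt θ 1) = (-1) ^ j * (1 + Real.cos θ) := by
  simp only [dot3, lf, pt, Matrix.cons_val_zero, Matrix.cons_val_one, Matrix.cons_val]
  ring

theorem lf_pt (θ : ℝ) (j k : ℕ) : dot3 (lf θ j) (pt θ (k + 2)) =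
    2 * Real.cos (j * θ - k * θ) - (-1) ^ (j + k) * (1 - Real.cos θ) := by
  simp only [dot3, lf, pt, Matrix.cons_val_zero, Matrix.cons_val_one, Matrix.cons_val]
  rw [Real.cos_sub, pow_add]
  ring

theorem cos_far {θ : ℝ} (h0 : 0 < θ) {m j k : ℕ} (hm : (m : ℝ) * θ ≤ 1) (hj : j ≤ m) (hk : k ≤ m)
    (h : j + 1 < k ∨ k + 1 < j) : Real.cos (j * θ - k * θ) < Real.cos θ := by
  have key : ∀ a b : ℕ, a + 1 < b → b ≤ m → Real.cos (b * θ - a * θ) < Real.cos θ := by
    intro a b hab hb
    have h1 : (a : ℝ) + 2 ≤ b := by exact_mod_cast hab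
    have h2 : (b : ℝ) ≤ m := by exact_mod_cast hb
    have h3 : θ < b * θ - a * θ := by nlinarith
    have h4 : b * θ - a * θ ≤ Real.pi := by
      have h5 : (b : ℝ) * θ ≤ m * θ := by gcongr
      have h6 : 0 ≤ (a : ℝ) * θ := by positivity
      have := Real.pi_gt_three
      linarith
    exact Real.cos_lt_cos_of_nonneg_of_le_pi h0.le h4 h3
  rcases h with h | h
  · have := key j k h hk
    rw [← Real.cos_neg]
    rw [show -(j * θ - k * θ) = k * θ - j * θ by ring]
    exact this
  · exact key k j h hj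

theorem cos_lt_one {θ : ℝ} (h0 : 0 < θ) {m j k : ℕ} (hm : (m : ℝ) * θ ≤ 1) (hj : j ≤ m) (hk : k ≤ m)
    (h : j ≠ k) : Real.cos (j * θ - k * θ) < 1 := by
  have key : ∀ a b : ℕ, a < b → b ≤ m → Real.cos (b * θ - a * θ) < 1 := by
    intro a b hab hb
    have h1 : (a : ℝ) + 1 ≤ b := by exact_mod_cast hab
    have h2 : (b : ℝ) ≤ m := by exact_mod_cast hb
    have h3 : 0 < b * θ - a * θ := by nlinarith
    have h4 : b * θ - a * θ ≤ Real.pi := by
      have h5 : (b : ℝ) * θ ≤ m * θ := by gcongr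
      have h6 : 0 ≤ (a : ℝ) * θ := by positivity
      have := Real.pi_gt_three
      linarith
    have := Real.cos_lt_cos_of_nonneg_of_le_pi le_rfl h4 h3
    rwa [Real.cos_zero] at this
  rcases Nat.lt_or_gt_of_ne h with h | h
  · have := key j k h hk
    rw [← Real.cos_neg]
    rw [show -(j * θ - k * θ) = k * θ - j * θ by ring]
    exact this
  · exact key k j h hj

/-- the functional of the facet `j` at the vertex `k+2` -/
theorem lf_near (θ : ℝ) {j k : ℕ} (h1 : k ≤ j + 1) (h2 : j ≤ k + 1) :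
    dot3 (lf θ j) (pt θ (k + 2)) = 1 + Real.cos θ := by
  rw [lf_pt]
  have hcases : k = j + 1 ∨ k = j ∨ j = k + 1 := by omega
  rcases hcases with h | h | h
  · subst h
    have e : ((-1 : ℝ)) ^ (j + (j + 1)) = -1 := by
      rw [show j + (j + 1) = 2 * j + 1 by ring, pow_succ, pow_mul]; norm_num
    rw [e]
    have e2 : (j : ℝ) * θ - ((j + 1 : ℕ) : ℝ) * θ = -θ := by push_cast; ring
    rw [e2, Real.cos_neg]
    ring
  · subst h
    have e : ((-1 : ℝ)) ^ (k + k) = 1 := by
      rw [show k + k = 2 * k by ring, pow_mul]; norm_num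
    rw [e]
    have e2 : (k : ℝ) * θ - (k : ℝ) * θ = 0 := by ring
    rw [e2, Real.cos_zero]
    ring
  · subst h
    have e : ((-1 : ℝ)) ^ (k + 1 + k) = -1 := by
      rw [show k + 1 + k = 2 * k + 1 by ring, pow_succ, pow_mul]; norm_num
    rw [e]
    have e2 : ((k + 1 : ℕ) : ℝ) * θ - (k : ℝ) * θ = θ := by push_cast; ring
    rw [e2]
    ring

theorem lf_far {θ : ℝ} (h0 : 0 < θ) {m j k : ℕ} (hm : (m : ℝ) * θ ≤ 1) (hj : j ≤ m) (hk : k ≤ m)
    (h : j + 1 < k ∨ k + 1 < j) : dot3 (lf θ j) (pt θ (k + 2)) < 1 + Real.cos θ := by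
  rw [lf_pt]
  have h1 := cos_far h0 hm hj hk h
  have h2 : Real.cos θ ≤ 1 := Real.cos_le_one θ
  rcases neg_one_pow_eq_or ℝ (j + k) with h3 | h3
  · rw [h3]; linarith
  · rw [h3]; linarith

/-- the model polytope -/
noncomputable def model (m : ℕ) (θ : ℝ) : Fin (m + 3) → E3 := fun i => WithLp.toLp 2 (pt θ i)

theorem model_coord (m : ℕ) (θ : ℝ) (i : Fin (m + 3)) : (fun j => model m θ i j) = pt θ i := rfl

theorem model_polytope {m : ℕ} {θ : ℝ} (hm1 : 1 ≤ m) (h0 : 0 < θ) (hm : (m : ℝ) * θ ≤ 1) : IsPolytope (model m θ) := by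
  have hθ1 : θ ≤ 1 := by
    have : (1 : ℝ) ≤ m := by exact_mod_cast hm1
    nlinarith
  have hpi := Real.pi_gt_three
  have hC : 0 < Real.cos θ := Real.cos_pos_of_mem_Ioo ⟨by linarith, by linarith⟩
  have hC1 : Real.cos θ < 1 := by
    have := Real.cos_lt_cos_of_nonneg_of_le_pi le_rfl (by linarith) h0
    rwa [Real.cos_zero] at this
  have hS : 0 < Real.sin θ := Real.sin_pos_of_pos_of_lt_pi h0 (by linarith)
  constructor
  · apply convexIndependent_of_exposed
    intro i
    simp only [model_coord]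
    obtain ⟨i, hi⟩ := i
    match i, hi with
    | 0, hi =>
      refine ⟨![0, 0, 1], ?_⟩
      rintro ⟨k, hk⟩ hne
      match k, hk with
      | 0, hk => exact absurd rfl hne
      | 1, hk =>
        simp only [dot3, pt, Matrix.cons_val_zero, Matrix.cons_val_one, Matrix.cons_val]
        linarith
      | (k + 2), hk =>
        simp only [dot3, pt, Matrix.cons_val_zero, Matrix.cons_val_one, Matrix.cons_val]
        rcases neg_one_pow_eq_or ℝ k with h3 | h3
        · rw [h3]; linarith
        · rw [h3]; linarith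
    | 1, hi =>
      refine ⟨![0, 0, -1], ?_⟩
      rintro ⟨k, hk⟩ hne
      match k, hk with
      | 0, hk =>
        simp only [dot3, pt, Matrix.cons_val_zero, Matrix.cons_val_one, Matrix.cons_val]
        linarith
      | 1, hk => exact absurd rfl hne
      | (k + 2), hk =>
        simp only [dot3, pt, Matrix.cons_val_zero, Matrix.cons_val_one, Matrix.cons_val]
        rcases neg_one_pow_eq_or ℝ k with h3 | h3
        · rw [h3]; linarith
        · rw [h3]; linarith
    | (i + 2), hi =>
      refine ⟨![Real.cos (i * θ), Real.sin (i * θ), 0], ?_⟩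
      have hself : dot3 ![Real.cos (i * θ), Real.sin (i * θ), 0] (pt θ (i + 2)) = 1 := by
        simp only [dot3, pt, Matrix.cons_val_zero, Matrix.cons_val_one, Matrix.cons_val]
        have := Real.sin_sq_add_cos_sq (i * θ)
        linear_combination this
      rw [hself]
      rintro ⟨k, hk⟩ hne
      match k, hk with
      | 0, hk =>
        simp only [dot3, pt, Matrix.cons_val_zero, Matrix.cons_val_one, Matrix.cons_val]
        norm_num
      | 1, hk =>
        simp only [dot3, pt, Matrix.cons_val_zero, Matrix.cons_val_one, Matrix.cons_val]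
        norm_num
      | (k + 2), hk =>
        have hik : i ≠ k := by
          rintro rfl
          exact hne rfl
        have := cos_lt_one h0 hm (j := i) (k := k) (by omega) (by omega) hik
        rw [Real.cos_sub] at this
        simp only [dot3, pt, Matrix.cons_val_zero, Matrix.cons_val_one, Matrix.cons_val]
        linarith
  · apply span_of_functional ⟨0, by omega⟩
    intro a c h
    simp only [model_coord] at h
    have g0 := h ⟨0, by omega⟩
    have g1 := h ⟨1, by omega⟩
    have g2 := h ⟨2, by omega⟩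
    have g3 := h ⟨3, by omega⟩
    simp only [dot3, pt, Matrix.cons_val_zero, Matrix.cons_val_one, Matrix.cons_val, Nat.cast_zero, zero_mul,
      Real.cos_zero, Real.sin_zero, pow_zero, Nat.cast_one, one_mul, pow_one] at g0 g1 g2 g3
    have a2 : a 2 = 0 := by
      have : a 2 * (1 + Real.cos θ) = 0 := by linarith
      rcases mul_eq_zero.1 this with h | h
      · exact h
      · linarith
    rw [a2] at g0 g1 g2 g3
    have a0 : a 0 = 0 := by linarith
    rw [a0] at g3
    have a1 : a 1 = 0 := by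
      have : a 1 * Real.sin θ = 0 := by linarith
      rcases mul_eq_zero.1 this with h | h
      · exact h
      · linarith
    funext i
    fin_cases i
    · exact a0
    · exact a1
    · exact a2

end MP0e5907LB
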