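import Pool.Agent.Lib_MP_0e5907_lb.Seq

/-!
# MP_0e5907, lower bound - the number of masses on a run of constant sign
-/

namespace MP0e5907LB

open Finset

theorem star_window {m : ℕ} {D x : ℕ → ℝ} (h : Str m D x) {w : ℕ} (hw : w + 6 ≤ m) :
    1 ≤ (mu D x w * mu D x (w + 1) * mu D x (w + 2) * mu D x (w + 3) * mu D x (w + 4)) *
      (D w * D (w + 1) * D (w + 2) * D (w + 3) * D (w + 4) * D (w + 5)) *
      (D (w + 2) + D (w + 3) - x (w + 3)) := by
  have h0 := h.D1 w (by omega)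
  have h1 := h.D1 (w + 1) (by omega)
  have h2 := h.D1 (w + 2) (by omega)
  have h3 := h.D1 (w + 3) (by omega)
  have h4 := h.D1 (w + 4) (by omega)
  have h5 := h.D1 (w + 5) (by omega)
  have hs := h.star w hw
  have e : (mu D x w * mu D x (w + 1) * mu D x (w + 2) * mu D x (w + 3) * mu D x (w + 4)) *
      (D w * D (w + 1) * D (w + 2) * D (w + 3) * D (w + 4) * D (w + 5)) *
      (D (w + 2) + D (w + 3) - x (w + 3)) =
      (x (w + 1) * x (w + 2) * x (w + 3) * x (w + 4) * x (w + 5) * (D (w + 2) + D (w + 3) - x (w + 3))) /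
      (D (w + 1) * D (w + 2) * D (w + 3) * D (w + 4)) := by
    have h0' : D w ≠ 0 := by positivity
    have h1' : D (w + 1) ≠ 0 := by positivity
    have h2' : D (w + 2) ≠ 0 := by positivity
    have h3' : D (w + 3) ≠ 0 := by positivity
    have h4' : D (w + 4) ≠ 0 := by positivity
    have h5' : D (w + 5) ≠ 0 := by positivity
    simp only [mu, show w + 1 + 1 = w + 2 from rfl, show w + 2 + 1 = w + 3 from rfl, show w + 3 + 1 = w + 4 from rfl,
      show w + 4 + 1 = w + 5 from rfl]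
    field_simp
  rw [e, one_le_div (by positivity)]
  exact hs

theorem prod_bound {u0 u1 u2 u3 u4 d0 d1 d2 d3 d4 d5 e a b : ℝ} (h0 : 0 ≤ u0) (h1 : 0 ≤ u1) (h2 : 0 ≤ u2)
    (h3 : 0 ≤ u3) (h4 : 0 ≤ u4) (k0 : 0 ≤ d0) (k1 : 0 ≤ d1) (k2 : 0 ≤ d2) (k3 : 0 ≤ d3) (k4 : 0 ≤ d4) (k5 : 0 ≤ d5)
    (c0 : u0 ≤ a) (c1 : u1 ≤ a) (c2 : u2 ≤ a) (c3 : u3 ≤ a) (c4 : u4 ≤ a)
    (g0 : d0 ≤ b) (g1 : d1 ≤ b) (g2 : d2 ≤ b) (g3 : d3 ≤ b) (g4 : d4 ≤ b) (g5 : d5 ≤ b) (he : e ≤ b) :
    u0 * u1 * u2 * u3 * u4 * (d0 * d1 * d2 * d3 * d4 * d5) * e ≤ a ^ 5 * b ^ 7 := by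
  have ha : 0 ≤ a := h0.trans c0
  have hb : 0 ≤ b := k0.trans g0
  have e1 : a ^ 5 * b ^ 7 = (a * a * a * a * a) * (b * b * b * b * b * b) * b := by ring
  rw [e1]
  have m1 : u0 * u1 * u2 * u3 * u4 ≤ a * a * a * a * a := by gcongr
  have m2 : d0 * d1 * d2 * d3 * d4 * d5 ≤ b * b * b * b * b * b := by gcongr
  have p1 : 0 ≤ u0 * u1 * u2 * u3 * u4 := by positivity
  have p2 : 0 ≤ d0 * d1 * d2 * d3 * d4 * d5 := by positivity
  have p3 : 0 ≤ a * a * a * a * a := by positivity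
  refine (mul_le_mul_of_nonneg_left he (mul_nonneg p1 p2)).trans ?_
  exact mul_le_mul_of_nonneg_right (mul_le_mul m1 m2 p2 p3) hb

theorem window {m : ℕ} {D x : ℕ → ℝ} (h : Str m D x) {p k : ℕ} (hk : 0 < k) (hm : p + k + 5 ≤ m) {S T : ℝ}
    (hS0 : 0 < S) (hT0 : 0 < T)
    (hS : ∑ j ∈ Ico p (p + k + 4), mu D x j ≤ S) (hT : ∑ j ∈ Ico p (p + k + 5), D j ≤ T) :
    (k : ℝ) ^ 12 ≤ (10 * S) ^ 5 * (12 * T) ^ 7 := by
  have hk0 : (0 : ℝ) < k := by exact_mod_cast hk
  have hmu : ∀ j, j + 1 < m → 0 ≤ mu D x j := fun j hj => (mu_pos h hj).le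
  have hD : ∀ j, j < m → 0 ≤ D j := fun j hj => by have := h.D1 j hj; linarith
  have shift : ∀ (F : ℕ → ℝ) (e t : ℕ), e ≤ t → (∀ j, p ≤ j → j < p + k + t → 0 ≤ F j) →
      ∑ i ∈ range k, F (p + i + e) ≤ ∑ j ∈ Ico p (p + k + t), F j := by
    intro F e t he hF
    have h1 : ∑ i ∈ range k, F (p + i + e) = ∑ j ∈ Ico (p + e) (p + e + k), F j := by
      rw [Finset.sum_Ico_eq_sum_range]
      have : p + e + k - (p + e) = k := by omega
      rw [this]
      refine Finset.sum_congr rfl fun i _ => ?_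
      congr 1
      omega
    rw [h1]
    refine Finset.sum_le_sum_of_subset_of_nonneg ?_ ?_
    · intro j hj
      simp only [Finset.mem_Ico] at hj ⊢
      omega
    · intro j hj _
      simp only [Finset.mem_Ico] at hj
      exact hF j hj.1 hj.2
  set A : ℕ → ℝ := fun i => mu D x (p + i) + mu D x (p + i + 1) + mu D x (p + i + 2) + mu D x (p + i + 3) +
    mu D x (p + i + 4) with hA
  set B : ℕ → ℝ := fun i => D (p + i) + D (p + i + 1) + D (p + i + 2) + D (p + i + 3) + D (p + i + 4) +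
    D (p + i + 5) with hB
  have sA : ∑ i ∈ range k, A i ≤ 5 * S := by
    have hs := fun e (he : e ≤ 4) => (shift (mu D x) e 4 he (fun j _ hj2 => hmu j (by omega))).trans hS
    have h0 := hs 0 (by omega)
    have h1 := hs 1 (by omega)
    have h2 := hs 2 (by omega)
    have h3 := hs 3 (by omega)
    have h4 := hs 4 (by omega)
    simp only [hA, Finset.sum_add_distrib]
    simp only [add_zero] at h0
    linarith
  have sB : ∑ i ∈ range k, B i ≤ 6 * T := by
    have hs := fun e (he : e ≤ 5) => (shift D e 5 he (fun j _ hj2 => hD j (by omega))).trans hT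
    have h0 := hs 0 (by omega)
    have h1 := hs 1 (by omega)
    have h2 := hs 2 (by omega)
    have h3 := hs 3 (by omega)
    have h4 := hs 4 (by omega)
    have h5 := hs 5 (by omega)
    simp only [hB, Finset.sum_add_distrib]
    simp only [add_zero] at h0
    linarith
  obtain ⟨i, hi, hle⟩ : ∃ i ∈ range k, A i / (5 * S) + B i / (6 * T) ≤ 2 / k := by
    refine Finset.exists_le_of_sum_le (Finset.nonempty_range_iff.2 hk.ne') ?_
    rw [Finset.sum_add_distrib, ← Finset.sum_div, ← Finset.sum_div, Finset.sum_const, Finset.card_range, nsmul_eq_mul]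
    have h1 : (∑ i ∈ range k, A i) / (5 * S) ≤ 1 := by
      rw [div_le_one (by positivity)]; exact sA
    have h2 : (∑ i ∈ range k, B i) / (6 * T) ≤ 1 := by
      rw [div_le_one (by positivity)]; exact sB
    have h3 : (k : ℝ) * (2 / k) = 2 := by field_simp
    rw [h3]
    linarith
  simp only [Finset.mem_range] at hi
  have a0 := hmu (p + i) (by omega)
  have a1 := hmu (p + i + 1) (by omega)
  have a2 := hmu (p + i + 2) (by omega)
  have a3 := hmu (p + i + 3) (by omega)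
  have a4 := hmu (p + i + 4) (by omega)
  have b0 := hD (p + i) (by omega)
  have b1 := hD (p + i + 1) (by omega)
  have b2 := hD (p + i + 2) (by omega)
  have b3 := hD (p + i + 3) (by omega)
  have b4 := hD (p + i + 4) (by omega)
  have b5 := hD (p + i + 5) (by omega)
  have x3 := h.x0 (p + i + 2) (by omega)
  have hA0 : 0 ≤ A i := by simp only [hA]; linarith
  have hB0 : 0 ≤ B i := by simp only [hB]; linarith
  have hA1 : A i ≤ 10 * S / k := by
    have h1 : 0 ≤ B i / (6 * T) := by positivity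
    have h2 : A i / (5 * S) ≤ 2 / k := by linarith
    rw [div_le_iff₀ (by positivity)] at h2
    calc A i ≤ 2 / k * (5 * S) := h2
      _ = _ := by ring
  have hB1 : B i ≤ 12 * T / k := by
    have h1 : 0 ≤ A i / (5 * S) := by positivity
    have h2 : B i / (6 * T) ≤ 2 / k := by linarith
    rw [div_le_iff₀ (by positivity)] at h2
    calc B i ≤ 2 / k * (6 * T) := h2
      _ = _ := by ring
  have hst := star_window h (w := p + i) (by omega)
  have hone : 1 ≤ A i ^ 5 * B i ^ 7 := by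
    refine hst.trans (prod_bound a0 a1 a2 a3 a4 b0 b1 b2 b3 b4 b5 ?_ ?_ ?_ ?_ ?_ ?_ ?_ ?_ ?_ ?_ ?_ ?_) <;>
      simp only [hA, hB] <;> linarith
  have h12 : 1 ≤ (10 * S / k) ^ 5 * (12 * T / k) ^ 7 := by
    refine hone.trans ?_
    gcongr
  have e : (10 * S / k) ^ 5 * (12 * T / k) ^ 7 = ((10 * S) ^ 5 * (12 * T) ^ 7) / (k : ℝ) ^ 12 := by
    rw [div_pow, div_pow, div_mul_div_comm, ← pow_add]
  rw [e, one_le_div (by positivity)] at h12
  exact h12

end MP0e5907LB
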