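import Mathlib

/-!
# MP_0e5907, lower bound - the sequence part: a discrete string with arithmetic lower bounds has few masses

`D j` is the time between the vertices `j` and `j+1`, `x (j+1) / (D j * D (j+1))` is the mass at the vertex `j+1`.
-/

namespace MP0e5907LB

open Finset

/-- the string data -/
structure Str (m : ℕ) (D x : ℕ → ℝ) : Prop where
  D1 : ∀ j, j < m → 1 ≤ D j
  x0 : ∀ j, j + 1 < m → 0 < x (j + 1)
  star : ∀ w, w + 6 ≤ m → D (w + 1) * D (w + 2) * D (w + 3) * D (w + 4) ≤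
    x (w + 1) * x (w + 2) * x (w + 3) * x (w + 4) * x (w + 5) * (D (w + 2) + D (w + 3) - x (w + 3))

/-- solutions of the string equation -/
def Sol (m : ℕ) (D x φ : ℕ → ℝ) : Prop :=
  ∀ j, j + 1 < m → (D j + D (j + 1) - x (j + 1)) * φ (j + 1) = D (j + 1) * φ j + D j * φ (j + 2)

/-- time -/
def tm (D : ℕ → ℝ) (j : ℕ) : ℝ := ∑ i ∈ range j, D i

theorem tm_succ (D : ℕ → ℝ) (j : ℕ) : tm D (j + 1) = tm D j + D j := Finset.sum_range_succ _ _

/-- mass at the vertex `j+1` -/
noncomputable def mu (D x : ℕ → ℝ) (j : ℕ) : ℝ := x (j + 1) / (D j * D (j + 1))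

theorem picone_step {f0 f1 g0 g1 : ℝ} (h0 : 0 < f0) (h1 : 0 < f1) :
    (f1 - f0) * (g1 ^ 2 / f1 - g0 ^ 2 / f0) ≤ (g1 - g0) ^ 2 := by
  have h : (g1 - g0) ^ 2 - (f1 - f0) * (g1 ^ 2 / f1 - g0 ^ 2 / f0) = (f0 * g1 - f1 * g0) ^ 2 / (f0 * f1) := by
    field_simp
    ring
  have h2 : 0 ≤ (f0 * g1 - f1 * g0) ^ 2 / (f0 * f1) := by positivity
  linarith

/-- Picone's inequality for a discrete string -/
theorem picone (L : ℕ) (D f ν g : ℕ → ℝ) (hD : ∀ j, j ≤ L → 0 < D j)
    (hf : ∀ j, j < L → 0 < f (j + 1)) (h0 : 0 ≤ f 0) (hL : 0 ≤ f (L + 1)) (g0 : g 0 = 0) (gL : g (L + 1) = 0)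
    (hs : ∀ j, j < L → (f (j + 2) - f (j + 1)) / D (j + 1) - (f (j + 1) - f j) / D j = - (ν j * f (j + 1))) :
    ∑ j ∈ range L, ν j * g (j + 1) ^ 2 ≤ ∑ j ∈ range (L + 1), (g (j + 1) - g j) ^ 2 / D j := by
  have key : ∀ i, i ≤ L → ∑ j ∈ range i, ν j * g (j + 1) ^ 2 +
      (f (i + 1) - f i) / D i * (g (i + 1) ^ 2 / f (i + 1)) ≤
      ∑ j ∈ range (i + 1), (g (j + 1) - g j) ^ 2 / D j := by
    intro i
    induction i with
    | zero =>
      intro _
      have hD0 := hD 0 (Nat.zero_le _)
      simp only [Finset.range_zero, Finset.sum_empty, zero_add, Finset.range_one, Finset.sum_singleton, g0, sub_zero]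
      rcases Nat.eq_zero_or_pos L with hz | hz
      · subst hz
        simp only [zero_add] at gL
        rw [gL]
        simp
      · have hf1 : 0 < f 1 := hf 0 hz
        have : (f 1 - f 0) / D 0 * (g 1 ^ 2 / f 1) = g 1 ^ 2 / D 0 - f 0 * g 1 ^ 2 / (D 0 * f 1) := by
          field_simp
        rw [this]
        have h2 : 0 ≤ f 0 * g 1 ^ 2 / (D 0 * f 1) := by positivity
        linarith
    | succ i ih =>
      intro hi
      have ih' := ih (by omega)
      have hDi := hD i (by omega)
      have hDi1 := hD (i + 1) hi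
      have hfi : 0 < f (i + 1) := hf i (by omega)
      have hsi := hs i (by omega)
      rw [Finset.sum_range_succ, Finset.sum_range_succ (fun j => (g (j + 1) - g j) ^ 2 / D j) (i + 1)]
      have e1 : ν i * g (i + 1) ^ 2 = (ν i * f (i + 1)) * (g (i + 1) ^ 2 / f (i + 1)) := by
        field_simp
      have e2 : ν i * f (i + 1) = (f (i + 1) - f i) / D i - (f (i + 2) - f (i + 1)) / D (i + 1) := by linarith
      have e3 : (f (i + 2) - f (i + 1)) / D (i + 1) * (g (i + 2) ^ 2 / f (i + 2)) -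
          (f (i + 2) - f (i + 1)) / D (i + 1) * (g (i + 1) ^ 2 / f (i + 1)) ≤
          (g (i + 2) - g (i + 1)) ^ 2 / D (i + 1) := by
        rcases Nat.lt_or_ge (i + 1) L with hlt | hge
        · have hf2 : 0 < f (i + 2) := hf (i + 1) hlt
          have := picone_step (f0 := f (i + 1)) (f1 := f (i + 2)) (g0 := g (i + 1)) (g1 := g (i + 2)) hfi hf2
          have e4 : (f (i + 2) - f (i + 1)) / D (i + 1) * (g (i + 2) ^ 2 / f (i + 2)) -
              (f (i + 2) - f (i + 1)) / D (i + 1) * (g (i + 1) ^ 2 / f (i + 1)) =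
              ((f (i + 2) - f (i + 1)) * (g (i + 2) ^ 2 / f (i + 2) - g (i + 1) ^ 2 / f (i + 1))) / D (i + 1) := by
            ring
          rw [e4]
          exact div_le_div_of_nonneg_right this hDi1.le
        · have hL' : i + 1 = L := le_antisymm hi hge
          have g2 : g (i + 2) = 0 := by rw [← hL'] at gL; exact gL
          have f2 : 0 ≤ f (i + 2) := by rw [← hL'] at hL; exact hL
          rw [g2]
          have e5 : (f (i + 2) - f (i + 1)) / D (i + 1) * ((0:ℝ) ^ 2 / f (i + 2)) -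
              (f (i + 2) - f (i + 1)) / D (i + 1) * (g (i + 1) ^ 2 / f (i + 1)) =
              (0 - g (i + 1)) ^ 2 / D (i + 1) - f (i + 2) * g (i + 1) ^ 2 / (D (i + 1) * f (i + 1)) := by
            field_simp
            ring
          rw [e5]
          have : 0 ≤ f (i + 2) * g (i + 1) ^ 2 / (D (i + 1) * f (i + 1)) := by positivity
          linarith
      have e6 : ν i * g (i + 1) ^ 2 = (f (i + 1) - f i) / D i * (g (i + 1) ^ 2 / f (i + 1)) -
          (f (i + 2) - f (i + 1)) / D (i + 1) * (g (i + 1) ^ 2 / f (i + 1)) := by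
        rw [e1, e2]
        ring
      show ∑ j ∈ range i, ν j * g (j + 1) ^ 2 + ν i * g (i + 1) ^ 2 +
        (f (i + 2) - f (i + 1)) / D (i + 1) * (g (i + 2) ^ 2 / f (i + 2)) ≤
        ∑ j ∈ range (i + 1), (g (j + 1) - g j) ^ 2 / D j + (g (i + 2) - g (i + 1)) ^ 2 / D (i + 1)
      rw [e6]
      linarith
  have := key L le_rfl
  rw [gL] at this
  simpa using this


theorem tm_mono {m : ℕ} {D x : ℕ → ℝ} (h : Str m D x) {i j : ℕ} (hij : i ≤ j) (hj : j ≤ m) : tm D i ≤ tm D j := by
  induction j, hij using Nat.le_induction with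
  | base => exact le_rfl
  | succ j hij ih =>
    have h1 := ih (by omega)
    have h2 := h.D1 j (by omega)
    rw [tm_succ]
    linarith

theorem tm_ge {m : ℕ} {D x : ℕ → ℝ} (h : Str m D x) {i j : ℕ} (hij : i ≤ j) (hj : j ≤ m) :
    (j : ℝ) - i ≤ tm D j - tm D i := by
  induction j, hij using Nat.le_induction with
  | base => simp
  | succ j hij ih =>
    have h1 := ih (by omega)
    have h2 := h.D1 j (by omega)
    rw [tm_succ]
    push_cast
    linarith

theorem sol_string {m : ℕ} {D x f : ℕ → ℝ} (h : Str m D x) (hf : Sol m D x f) {j : ℕ} (hj : j + 1 < m) :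
    (f (j + 2) - f (j + 1)) / D (j + 1) - (f (j + 1) - f j) / D j = - (mu D x j * f (j + 1)) := by
  have h1 := h.D1 j (by omega)
  have h2 := h.D1 (j + 1) hj
  have h3 := hf j hj
  have h1' : D j ≠ 0 := by positivity
  have h2' : D (j + 1) ≠ 0 := by positivity
  unfold mu
  field_simp
  linarith

theorem mu_pos {m : ℕ} {D x : ℕ → ℝ} (h : Str m D x) {j : ℕ} (hj : j + 1 < m) : 0 < mu D x j := by
  have h1 := h.D1 j (by omega)
  have h2 := h.D1 (j + 1) hj
  have h3 := h.x0 j hj
  unfold mu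
  positivity

theorem min_one_step {a b d : ℝ} (hd : 0 ≤ d) (hb : b = a + d) : |min 1 b - min 1 a| ≤ d := by
  subst hb
  have := abs_min_sub_min_le_max (1:ℝ) (a + d) 1 a
  refine this.trans ?_
  simp [abs_of_nonneg hd, hd]

/-- mass of the middle part of a run -/
theorem mid_mass {m : ℕ} {D x f : ℕ → ℝ} (h : Str m D x) (hf : Sol m D x f) {a L : ℕ} (hb : a + L + 1 ≤ m)
    (fa : 0 ≤ f a) (fb : 0 ≤ f (a + L + 1)) (fpos : ∀ j, j < L → 0 < f (a + j + 1)) {Λ : ℝ} (hΛ : 0 < Λ)
    (p q : ℕ) (hq : q ≤ L) (hmid : ∀ j, p ≤ j → j < q →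
      Λ ≤ tm D (a + j + 1) - tm D a ∧ Λ ≤ tm D (a + L + 1) - tm D (a + j + 1)) :
    ∑ j ∈ Ico p q, mu D x (a + j) ≤ 2 / Λ := by
  set u : ℕ → ℝ := fun j => min 1 ((tm D (a + j) - tm D a) / Λ) with hu
  set v : ℕ → ℝ := fun j => min 1 ((tm D (a + L + 1) - tm D (a + j)) / Λ) with hv
  have hDp : ∀ j, j ≤ L → 1 ≤ D (a + j) := fun j hj => h.D1 _ (by omega)
  have hP := picone L (fun j => D (a + j)) (fun j => f (a + j)) (fun j => mu D x (a + j)) (fun j => min (u j) (v j))
    (fun j hj => by have := hDp j hj; show 0 < D (a + j); linarith) (fun j hj => fpos j hj) fa fb ?_ ?_ ?_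
  rotate_left
  · have h1 : u 0 = 0 := by simp [hu]
    have h2 : 0 ≤ v 0 := by
      simp only [hv]
      apply le_min zero_le_one
      apply div_nonneg _ hΛ.le
      have := tm_mono h (i := a + 0) (j := a + L + 1) (by omega) hb
      linarith
    show min (u 0) (v 0) = 0
    rw [h1]
    exact min_eq_left h2
  · have h1 : v (L + 1) = 0 := by simp [hv, add_assoc]
    have h2 : 0 ≤ u (L + 1) := by
      simp only [hu]
      apply le_min zero_le_one
      apply div_nonneg _ hΛ.le
      have := tm_mono h (i := a) (j := a + (L + 1)) (by omega) (by omega)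
      linarith
    show min (u (L + 1)) (v (L + 1)) = 0
    rw [h1]
    exact min_eq_right h2
  · intro j hj
    exact sol_string h hf (j := a + j) (by omega)
  have hstep : ∀ j ∈ range (L + 1), (min (u (j + 1)) (v (j + 1)) - min (u j) (v j)) ^ 2 / D (a + j) ≤
      ((u (j + 1) - u j) + (v j - v (j + 1))) / Λ := by
    intro j hj
    have hj' : j ≤ L := by simpa [Nat.lt_succ_iff] using hj
    have hD1 := hDp j hj'
    have hD0 : 0 < D (a + j) := by linarith
    have e1 : tm D (a + (j + 1)) = tm D (a + j) + D (a + j) := tm_succ D (a + j)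
    have hu1 : |u (j + 1) - u j| ≤ D (a + j) / Λ := by
      simp only [hu]
      refine min_one_step (by positivity) ?_
      rw [e1]
      ring
    have hv1 : |v j - v (j + 1)| ≤ D (a + j) / Λ := by
      simp only [hv]
      refine min_one_step (by positivity) ?_
      rw [e1]
      ring
    have hu2 : 0 ≤ u (j + 1) - u j := by
      simp only [hu]
      rw [sub_nonneg]
      refine min_le_min le_rfl ?_
      rw [e1]
      gcongr
      linarith
    have hv2 : 0 ≤ v j - v (j + 1) := by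
      simp only [hv]
      rw [sub_nonneg]
      refine min_le_min le_rfl ?_
      rw [e1]
      gcongr
      linarith
    have hg := abs_min_sub_min_le_max (u (j + 1)) (v (j + 1)) (u j) (v j)
    have hv1' : |v (j + 1) - v j| ≤ D (a + j) / Λ := by rw [abs_sub_comm]; exact hv1
    have hg1 : |min (u (j + 1)) (v (j + 1)) - min (u j) (v j)| ≤ D (a + j) / Λ := hg.trans (max_le hu1 hv1')
    have hg2 : |min (u (j + 1)) (v (j + 1)) - min (u j) (v j)| ≤ (u (j + 1) - u j) + (v j - v (j + 1)) := by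
      refine hg.trans (max_le ?_ ?_)
      · rw [abs_of_nonneg hu2]; linarith
      · rw [abs_sub_comm, abs_of_nonneg hv2]; linarith
    have e2 : (min (u (j + 1)) (v (j + 1)) - min (u j) (v j)) ^ 2 =
        |min (u (j + 1)) (v (j + 1)) - min (u j) (v j)| * |min (u (j + 1)) (v (j + 1)) - min (u j) (v j)| := by
      rw [← sq, sq_abs]
    rw [e2]
    have h3 : |min (u (j + 1)) (v (j + 1)) - min (u j) (v j)| * |min (u (j + 1)) (v (j + 1)) - min (u j) (v j)| ≤
        (D (a + j) / Λ) * ((u (j + 1) - u j) + (v j - v (j + 1))) :=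
      mul_le_mul hg1 hg2 (abs_nonneg _) (by positivity)
    calc _ ≤ ((D (a + j) / Λ) * ((u (j + 1) - u j) + (v j - v (j + 1)))) / D (a + j) := by gcongr
      _ = _ := by field_simp
  have hsum : ∑ j ∈ range (L + 1), (min (u (j + 1)) (v (j + 1)) - min (u j) (v j)) ^ 2 / D (a + j) ≤ 2 / Λ := by
    refine (Finset.sum_le_sum hstep).trans ?_
    rw [← Finset.sum_div, Finset.sum_add_distrib, Finset.sum_range_sub, Finset.sum_range_sub']
    gcongr
    have hu1 : u (L + 1) ≤ 1 := min_le_left _ _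
    have hv1 : v 0 ≤ 1 := min_le_left _ _
    have hu0 : u 0 = 0 := by simp [hu]
    have hv0 : v (L + 1) = 0 := by simp [hv, add_assoc]
    rw [hu0, hv0]
    linarith
  refine le_trans ?_ (hP.trans hsum)
  have hsub : Ico p q ⊆ range L := by
    intro j hj
    simp only [Finset.mem_Ico, Finset.mem_range] at hj ⊢
    omega
  refine le_trans ?_ (Finset.sum_le_sum_of_subset_of_nonneg hsub ?_)
  · refine Finset.sum_le_sum fun j hj => ?_
    simp only [Finset.mem_Ico] at hj
    obtain ⟨h1, h2⟩ := hmid j hj.1 hj.2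
    have hu1 : u (j + 1) = 1 := by
      simp only [hu]
      apply min_eq_left
      rw [le_div_iff₀ hΛ]
      have e : a + (j + 1) = a + j + 1 := rfl
      rw [e]
      linarith
    have hv1 : v (j + 1) = 1 := by
      simp only [hv]
      apply min_eq_left
      rw [le_div_iff₀ hΛ]
      have e : a + (j + 1) = a + j + 1 := rfl
      rw [e]
      linarith
    show mu D x (a + j) ≤ mu D x (a + j) * (min (u (j + 1)) (v (j + 1))) ^ 2
    rw [hu1, hv1]
    simp
  · intro j hj _
    simp only [Finset.mem_range] at hj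
    have := mu_pos h (j := a + j) (by omega)
    positivity

end MP0e5907LB
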