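import Pool.Agent.Lib_MP_0e5907_lb.Chain

/-!
# MP_0e5907, lower bound - the arithmetic inequality, the crossing lemma, the string of a chain
-/

namespace MP0e5907LB

open Finset

variable {m : ℕ} {W : Fin 3 → ℝ} {P l : ℕ → Fin 3 → ℝ}

/-- normal vector of the facet `j+1` -/
def qq (P : ℕ → Fin 3 → ℝ) (j : ℕ) : Fin 3 → ℝ :=
  cross3 (fun i => P (j + 1) i - P j i) (fun i => P (j + 2) i - P j i)

theorem qqW (W : Fin 3 → ℝ) (P : ℕ → Fin 3 → ℝ) (j : ℕ) : dot3 (qq P j) W = xx W P (j + 1) := by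
  rw [xx_succ]
  simp only [dot3, qq, cross3, DD, det3, Matrix.cons_val_zero, Matrix.cons_val_one, Matrix.cons_val]
  ring

theorem qq0 (P : ℕ → Fin 3 → ℝ) (j : ℕ) : dot3 (qq P j) (P j) = det3 (P j) (P (j + 1)) (P (j + 2)) := by
  simp only [dot3, qq, cross3, det3, Matrix.cons_val_zero, Matrix.cons_val_one, Matrix.cons_val]
  ring

theorem qq1 (P : ℕ → Fin 3 → ℝ) (j : ℕ) : dot3 (qq P j) (P (j + 1)) = det3 (P j) (P (j + 1)) (P (j + 2)) := by
  simp only [dot3, qq, cross3, det3, Matrix.cons_val_zero, Matrix.cons_val_one, Matrix.cons_val]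
  ring

theorem qq2 (P : ℕ → Fin 3 → ℝ) (j : ℕ) : dot3 (qq P j) (P (j + 2)) = det3 (P j) (P (j + 1)) (P (j + 2)) := by
  simp only [dot3, qq, cross3, det3, Matrix.cons_val_zero, Matrix.cons_val_one, Matrix.cons_val]
  ring

/-- the integers in the reals -/
def ZZ : Subring ℝ := (Int.castRingHom ℝ).range

theorem mem_ZZ {r : ℝ} : r ∈ ZZ ↔ ∃ k : ℤ, r = k := by
  constructor
  · rintro ⟨k, hk⟩
    exact ⟨k, hk.symm⟩
  · rintro ⟨k, rfl⟩
    exact ⟨k, rfl⟩

theorem ZZ_one_le {r : ℝ} (h : r ∈ ZZ) (h0 : 0 < r) : 1 ≤ r := by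
  obtain ⟨k, rfl⟩ := mem_ZZ.1 h
  have h1 : (0 : ℤ) < k := by exact_mod_cast h0
  have h2 : (1 : ℤ) ≤ k := h1
  exact_mod_cast h2

theorem det3_mem {a b c : Fin 3 → ℝ} (ha : ∀ i, a i ∈ ZZ) (hb : ∀ i, b i ∈ ZZ) (hc : ∀ i, c i ∈ ZZ) :
    det3 a b c ∈ ZZ := by
  unfold det3
  exact ZZ.add_mem (ZZ.sub_mem (ZZ.mul_mem (ha _) (ZZ.sub_mem (ZZ.mul_mem (hb _) (hc _)) (ZZ.mul_mem (hb _) (hc _))))
    (ZZ.mul_mem (ha _) (ZZ.sub_mem (ZZ.mul_mem (hb _) (hc _)) (ZZ.mul_mem (hb _) (hc _)))))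
    (ZZ.mul_mem (ha _) (ZZ.sub_mem (ZZ.mul_mem (hb _) (hc _)) (ZZ.mul_mem (hb _) (hc _))))

theorem cross3_mem {a b : Fin 3 → ℝ} (ha : ∀ i, a i ∈ ZZ) (hb : ∀ i, b i ∈ ZZ) : ∀ i, cross3 a b i ∈ ZZ := by
  intro i
  fin_cases i
  · exact ZZ.sub_mem (ZZ.mul_mem (ha _) (hb _)) (ZZ.mul_mem (ha _) (hb _))
  · exact ZZ.sub_mem (ZZ.mul_mem (ha _) (hb _)) (ZZ.mul_mem (ha _) (hb _))
  · exact ZZ.sub_mem (ZZ.mul_mem (ha _) (hb _)) (ZZ.mul_mem (ha _) (hb _))

theorem Chain.memP (C : Chain m W P l) (i : ℕ) : ∀ j, P i j ∈ ZZ := fun j => mem_ZZ.2 (C.intP i j)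

theorem Chain.memW (C : Chain m W P l) : ∀ j, W j ∈ ZZ := fun j => mem_ZZ.2 (C.intW j)

theorem Chain.memq (C : Chain m W P l) (j : ℕ) : ∀ i, qq P j i ∈ ZZ :=
  cross3_mem (fun i => ZZ.sub_mem (C.memP _ i) (C.memP _ i)) (fun i => ZZ.sub_mem (C.memP _ i) (C.memP _ i))

theorem Chain.star (C : Chain m W P l) (h0 : 0 < DD W P 1) {w : ℕ} (hw : w + 6 ≤ m) :
    DD W P (w + 1) * DD W P (w + 2) * DD W P (w + 3) * DD W P (w + 4) ≤
    xx W P (w + 1) * xx W P (w + 2) * xx W P (w + 3) * xx W P (w + 4) * xx W P (w + 5) *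
      (DD W P (w + 2) + DD W P (w + 3) - xx W P (w + 3)) := by
  have d1 := C.Dpos h0 w (by omega)
  have d2 : 0 < DD W P (w + 2) := C.Dpos h0 (w + 1) (by omega)
  have d3 : 0 < DD W P (w + 3) := C.Dpos h0 (w + 2) (by omega)
  have d4 : 0 < DD W P (w + 4) := C.Dpos h0 (w + 3) (by omega)
  have x1 := C.xpos h0 (by omega) w (by omega)
  have x2 : 0 < xx W P (w + 2) := C.xpos h0 (by omega) (w + 1) (by omega)
  have x3 : 0 < xx W P (w + 3) := C.xpos h0 (by omega) (w + 2) (by omega)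
  have x4 : 0 < xx W P (w + 4) := C.xpos h0 (by omega) (w + 3) (by omega)
  have x5 : 0 < xx W P (w + 5) := C.xpos h0 (by omega) (w + 4) (by omega)
  have hE : 0 < DD W P (w + 2) + DD W P (w + 3) - xx W P (w + 3) := by
    obtain ⟨α, β, ha, hb, he⟩ := C.ED (c := w + 2) (by omega)
    exact pos_of_eq ha hb he d3
  -- values of the functionals
  have a1 : dot3 (qq P w) (P (w + 1)) = ev (w + 1) * xx W P (w + 1) := by rw [qq1, C.copl (by omega)]
  have a2 : dot3 (qq P w) (P (w + 2)) = ev (w + 1) * xx W P (w + 1) := by rw [qq2, C.copl (by omega)]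
  have aW : dot3 (qq P w) W = xx W P (w + 1) := qqW W P w
  have ev3 : ev (w + 3) = ev (w + 1) := ev_add_two (w + 1)
  have ev5 : ev (w + 5) = ev (w + 1) := by rw [show w + 5 = w + 3 + 2 from rfl, ev_add_two, ev3]
  have ev2 : ev (w + 2) = 1 - ev (w + 1) := ev_succ (w + 1)
  have ev4 : ev (w + 4) = 1 - ev (w + 1) := by rw [show w + 4 = w + 2 + 2 from rfl, ev_add_two, ev2]
  have b2 : dot3 (qq P (w + 2)) (P (w + 2)) = ev (w + 1) * xx W P (w + 3) := by
    rw [qq0, C.copl (by omega), ← ev3]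
  have b4 : dot3 (qq P (w + 2)) (P (w + 4)) = ev (w + 1) * xx W P (w + 3) := by
    have := qq2 P (w + 2)
    have e := C.copl (j := w + 2) (by omega)
    rw [show w + 4 = w + 2 + 2 from rfl, this, e, ← ev3]
  have bW : dot3 (qq P (w + 2)) W = xx W P (w + 3) := qqW W P (w + 2)
  have c4 : dot3 (qq P (w + 4)) (P (w + 4)) = ev (w + 1) * xx W P (w + 5) := by
    rw [qq0, C.copl (by omega), ← ev5]
  have c5 : dot3 (qq P (w + 4)) (P (w + 5)) = ev (w + 1) * xx W P (w + 5) := by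
    have := qq1 P (w + 4)
    have e := C.copl (j := w + 4) (by omega)
    rw [show w + 5 = w + 4 + 1 from rfl, this, e]
    rw [show ev (w + 4 + 1) = ev (w + 1) from ev5]
  have cW : dot3 (qq P (w + 4)) W = xx W P (w + 5) := qqW W P (w + 4)
  -- relations
  have r1 := C.rel (j := w + 2) (by omega) (qq P w)
  have r2 := C.rel (j := w + 1) (by omega) (qq P w)
  have r3 := C.rel (j := w + 2) (by omega) (qq P (w + 4))
  have r4 := C.rel (j := w + 3) (by omega) (qq P (w + 4))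
  have hi := ident3 (qq P w) (qq P (w + 2)) (qq P (w + 4)) W (P (w + 2)) (P (w + 4))
  have hEE : det3 W (P (w + 2)) (P (w + 4)) = DD W P (w + 2) + DD W P (w + 3) - xx W P (w + 3) := by
    have := xx_succ W P (w + 2)
    rw [show w + 3 = w + 2 + 1 from rfl, this, show w + 2 + 2 = w + 4 from rfl]
    ring
  rw [hEE, aW, a2, bW, b2, b4, cW, c4] at hi
  simp only [show w + 2 + 1 = w + 3 from rfl, show w + 2 + 2 = w + 4 from rfl, show w + 1 + 1 = w + 2 from rfl,
    show w + 1 + 2 = w + 3 from rfl, show w + 3 + 1 = w + 4 from rfl, show w + 3 + 2 = w + 5 from rfl] at r1 r2 r3 r4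
  rw [aW, a2, ev3] at r1
  rw [aW, a1, a2, ev2] at r2
  rw [cW, c4, ev3] at r3
  rw [cW, c4, c5, ev4] at r4
  have hmem : det3 (qq P w) (qq P (w + 2)) (qq P (w + 4)) ∈ ZZ := det3_mem (C.memq _) (C.memq _) (C.memq _)
  have hsq := ev_sq (w + 1)
  generalize det3 (qq P w) (qq P (w + 2)) (qq P (w + 4)) = Δ at hi hmem
  generalize dot3 (qq P w) (P (w + 4)) = s at hi r1
  generalize dot3 (qq P w) (P (w + 3)) = s' at r1 r2
  generalize dot3 (qq P (w + 4)) (P (w + 2)) = t at hi r3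
  generalize dot3 (qq P (w + 4)) (P (w + 3)) = t' at r3 r4
  generalize DD W P (w + 1) = D1 at *
  generalize DD W P (w + 2) = D2 at *
  generalize DD W P (w + 3) = D3 at *
  generalize DD W P (w + 4) = D4 at *
  generalize xx W P (w + 1) = X1 at *
  generalize xx W P (w + 2) = X2 at *
  generalize xx W P (w + 3) = X3 at *
  generalize xx W P (w + 4) = X4 at *
  generalize xx W P (w + 5) = X5 at *
  generalize ev (w + 1) = e at *
  set E := D2 + D3 - X3 with hEdef
  have k1 : D2 * (s - e * X1) = E * (s' - e * X1) := by rw [hEdef]; linear_combination r1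
  have k2 : D1 * (s' - e * X1) = (1 - 2 * e) * X1 * X2 := by linear_combination r2
  have k3 : D3 * (t - e * X5) = E * (t' - e * X5) := by rw [hEdef]; linear_combination r3
  have k4 : D4 * (t' - e * X5) = (1 - 2 * e) * X4 * X5 := by linear_combination r4
  have k5 : Δ * E = X3 * (s - e * X1) * (t - e * X5) := by linear_combination hi
  have k6 : E * (Δ * (D1 * D2 * D3 * D4)) = E * (X1 * X2 * X3 * X4 * X5 * E) := by
    calc E * (Δ * (D1 * D2 * D3 * D4)) = (Δ * E) * (D1 * D2 * D3 * D4) := by ring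
      _ = X3 * (D2 * (s - e * X1)) * (D3 * (t - e * X5)) * (D1 * D4) := by rw [k5]; ring
      _ = X3 * E * E * (D1 * (s' - e * X1)) * (D4 * (t' - e * X5)) := by rw [k1, k3]; ring
      _ = X3 * E * E * (X1 * X2 * X4 * X5) * ((1 - 2 * e) ^ 2) := by rw [k2, k4]; ring
      _ = _ := by rw [hsq]; ring
  have k7 := mul_left_cancel₀ hE.ne' k6
  have hpos : 0 < Δ := by
    have : 0 < Δ * (D1 * D2 * D3 * D4) := by rw [k7]; positivity
    exact (mul_pos_iff_of_pos_right (by positivity)).1 this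
  have hone := ZZ_one_le hmem hpos
  rw [← k7]
  have : 0 < D1 * D2 * D3 * D4 := by positivity
  nlinarith

/-- a functional modulo `W` changes its sign from negative to nonnegative at most once -/
theorem Chain.crossing (C : Chain m W P l) (h0 : 0 < DD W P 1) (v : Fin 3 → ℝ) {i j : ℕ} (hi : 1 ≤ i) (hij : i < j)
    (hj : j + 1 < m) (h1 : det3 W v (P i) < 0) (h2 : 0 ≤ det3 W v (P (i + 1))) (h3 : det3 W v (P j) < 0)
    (h4 : 0 ≤ det3 W v (P (j + 1))) : False := by
  have hij2 : i + 2 ≤ j := by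
    by_contra hc
    have : j = i + 1 := by omega
    rw [this] at h3
    linarith
  have di : 0 < DD W P i := by
    obtain ⟨i', rfl⟩ : ∃ i', i = i' + 1 := ⟨i - 1, by omega⟩
    exact C.Dpos h0 i' (by omega)
  have dj : 0 < DD W P j := by
    obtain ⟨j', rfl⟩ : ∃ j', j = j' + 1 := ⟨j - 1, by omega⟩
    exact C.Dpos h0 j' (by omega)
  obtain ⟨k, hk1, hk2, hk3⟩ : ∃ k, i ≤ k ∧ k ≤ i + 1 ∧ ¬ Even k := by
    by_cases h : Even i
    · exact ⟨i + 1, by omega, le_rfl, by rw [Nat.even_add_one]; simpa using h⟩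
    · exact ⟨i, le_rfl, by omega, h⟩
  obtain ⟨k', hk1', hk2', hk3'⟩ : ∃ k, j ≤ k ∧ k ≤ j + 1 ∧ ¬ Even k := by
    by_cases h : Even j
    · exact ⟨j + 1, by omega, le_rfl, by rw [Nat.even_add_one]; simpa using h⟩
    · exact ⟨j, le_rfl, by omega, h⟩
  have ek : ev k = 0 := by unfold ev; rw [if_neg hk3]
  have ek' : ev k' = 0 := by unfold ev; rw [if_neg hk3']
  have w1 := C.odd k (by omega) (by omega) hk3
  have w2 := C.odd k' (by omega) (by omega) hk3'
  have p1 := C.on k i (by omega) (by omega) (by omega) (by omega)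
  have p2 := C.on k (i + 1) (by omega) (by omega) (by omega) (by omega)
  have p3 := C.offle (k := k) (i := j) (by omega) (by omega) (by omega)
  have p4 := C.off k (j + 1) (by omega) (by omega) (by omega) (Or.inl (by omega))
  have q1 := C.on k' j (by omega) (by omega) (by omega) (by omega)
  have q2 := C.on k' (j + 1) (by omega) (by omega) (by omega) (by omega)
  have q3 := C.offle (k := k') (i := i) (by omega) (by omega) (by omega)
  have q4 := C.offle (k := k') (i := i + 1) (by omega) (by omega) (by omega)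
  rw [ek, zero_mul] at p1 p2 p3 p4
  rw [ek', zero_mul] at q1 q2 q3 q4
  have r1 := ident2 W v (P i) (P (i + 1)) (l k)
  have r2 := ident2 W v (P j) (P (j + 1)) (l k)
  have r3 := ident2 W v (P i) (P (i + 1)) (l k')
  have r4 := ident2 W v (P j) (P (j + 1)) (l k')
  rw [p1, p2] at r1
  rw [q1, q2] at r4
  have e1 : det3 W (P i) (P (i + 1)) = DD W P i := rfl
  have e2 : det3 W (P j) (P (j + 1)) = DD W P j := rfl
  rw [e1] at r1 r3
  rw [e2] at r2 r4
  generalize DD W P i = Di at *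
  generalize DD W P j = Dj at *
  generalize dot3 (l k) v = g at *
  generalize dot3 (l k') v = g' at *
  generalize dot3 (l k) W = ω at *
  generalize dot3 (l k') W = ω' at *
  generalize det3 v (P i) (P (i + 1)) = τi at *
  generalize det3 v (P j) (P (j + 1)) = τj at *
  generalize dot3 (l k) (P j) = y3 at *
  generalize dot3 (l k) (P (j + 1)) = y4 at *
  generalize dot3 (l k') (P i) = z3 at *
  generalize dot3 (l k') (P (i + 1)) = z4 at *
  generalize det3 W v (P i) = f1 at *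
  generalize det3 W v (P (i + 1)) = f2 at *
  generalize det3 W v (P j) = f3 at *
  generalize det3 W v (P (j + 1)) = f4 at *
  have s1 : (Dj * τi - Di * τj) * ω = Di * (f4 * y3 - f3 * y4) := by linear_combination Di * r2 - Dj * r1
  have s2 : (Di * τj - Dj * τi) * ω' = Dj * (f2 * z3 - f1 * z4) := by linear_combination Dj * r3 - Di * r4
  have s3 : f4 * y3 - f3 * y4 < 0 := by
    have : f4 * y3 ≤ 0 := mul_nonpos_of_nonneg_of_nonpos h4 p3
    have : 0 < f3 * y4 := mul_pos_of_neg_of_neg h3 p4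
    linarith
  have s4 : f2 * z3 - f1 * z4 ≤ 0 := by
    have : f2 * z3 ≤ 0 := mul_nonpos_of_nonneg_of_nonpos h2 q3
    have : 0 ≤ f1 * z4 := mul_nonneg_of_nonpos_of_nonpos h1.le q4
    linarith
  have s5 : 0 < Dj * τi - Di * τj := by
    by_contra hc
    push Not at hc
    have h5 : 0 ≤ (Dj * τi - Di * τj) * ω := mul_nonneg_of_nonpos_of_nonpos hc w1.le
    have h6 : Di * (f4 * y3 - f3 * y4) < 0 := mul_neg_of_pos_of_neg di s3
    linarith
  have s6 : 0 < (Di * τj - Dj * τi) * ω' := mul_pos_of_neg_of_neg (by linarith) w2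
  have s7 : Dj * (f2 * z3 - f1 * z4) ≤ 0 := mul_nonpos_of_nonneg_of_nonpos dj.le s4
  linarith

/-- the string of the chain (with the indices shifted by one) -/
theorem Chain.str (C : Chain m W P l) (h0 : 0 < DD W P 1) :
    Str (m - 2) (fun j => DD W P (j + 1)) (fun j => xx W P (j + 1)) := by
  constructor
  · intro j hj
    exact ZZ_one_le (det3_mem C.memW (C.memP _) (C.memP _)) (C.Dpos h0 j (by omega))
  · intro j hj
    exact C.xpos h0 (by omega) (j + 1) (by omega)
  · intro w hw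
    exact C.star h0 (w := w + 1) (by omega)

theorem Chain.sol (C : Chain m W P l) (v : Fin 3 → ℝ) :
    Sol (m - 2) (fun j => DD W P (j + 1)) (fun j => xx W P (j + 1)) (fun j => det3 W v (P (j + 1))) := by
  intro j hj
  have hr := C.rel (j := j + 1) (by omega) (cross3 W v)
  have e : ∀ a, dot3 (cross3 W v) a = det3 W v a := by
    intro a
    simp only [dot3, cross3, det3, Matrix.cons_val_zero, Matrix.cons_val_one, Matrix.cons_val]
    ring
  have e2 : det3 W v W = 0 := by simp only [det3]; ring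
  rw [e, e, e, e, e2] at hr
  show (DD W P (j + 1) + DD W P (j + 1 + 1) - xx W P (j + 1 + 1)) * det3 W v (P (j + 1 + 1)) =
    DD W P (j + 1 + 1) * det3 W v (P (j + 1)) + DD W P (j + 1) * det3 W v (P (j + 2 + 1))
  have e3 : P (j + 1 + 2) = P (j + 2 + 1) := rfl
  rw [e3] at hr
  linear_combination -hr

end MP0e5907LB
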