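import Pool.Agent.Lib_MP_0e5907_lb.Star

/-!
# MP_0e5907, lower bound - the total time is at most the volume of a box
-/

namespace MP0e5907LB

open Finset MeasureTheory

variable {m : ℕ} {W : Fin 3 → ℝ} {P l : ℕ → Fin 3 → ℝ}

/-- coordinates with respect to `a b c` (times the determinant) -/
def cmat (a b c : Fin 3 → ℝ) : Matrix (Fin 3) (Fin 3) ℝ := Matrix.of ![cross3 b c, cross3 c a, cross3 a b]

theorem cmat_det (a b c : Fin 3 → ℝ) : (cmat a b c).det = det3 a b c ^ 2 := by
  rw [Matrix.det_fin_three]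
  simp only [cmat, cross3, det3, Matrix.of_apply, Matrix.cons_val_zero, Matrix.cons_val_one, Matrix.cons_val]
  ring

theorem cmat_apply0 (a b c v : Fin 3 → ℝ) : (Matrix.toLin' (cmat a b c)) v 0 = det3 v b c := by
  rw [Matrix.toLin'_apply]
  simp only [Matrix.mulVec, dotProduct, Fin.sum_univ_three, cmat, cross3, det3, Matrix.of_apply, Matrix.cons_val_zero,
    Matrix.cons_val_one, Matrix.cons_val]
  ring

theorem cmat_apply1 (a b c v : Fin 3 → ℝ) : (Matrix.toLin' (cmat a b c)) v 1 = det3 a v c := by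
  rw [Matrix.toLin'_apply]
  simp only [Matrix.mulVec, dotProduct, Fin.sum_univ_three, cmat, cross3, det3, Matrix.of_apply, Matrix.cons_val_zero,
    Matrix.cons_val_one, Matrix.cons_val]
  ring

theorem cmat_apply2 (a b c v : Fin 3 → ℝ) : (Matrix.toLin' (cmat a b c)) v 2 = det3 a b v := by
  rw [Matrix.toLin'_apply]
  simp only [Matrix.mulVec, dotProduct, Fin.sum_univ_three, cmat, cross3, det3, Matrix.of_apply, Matrix.cons_val_zero,
    Matrix.cons_val_one, Matrix.cons_val]
  ring

/-- the small open parallelepiped at the origin: coordinates between `0` and `1/3` -/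
def box (a b c : Fin 3 → ℝ) : Set (Fin 3 → ℝ) :=
  (Matrix.toLin' (cmat a b c)) ⁻¹' (Set.pi Set.univ fun _ => Set.Ioo 0 (det3 a b c / 3))

theorem box_volume {a b c : Fin 3 → ℝ} (h : 0 < det3 a b c) :
    volume (box a b c) = ENNReal.ofReal (det3 a b c / 27) := by
  have hdet : LinearMap.det (Matrix.toLin' (cmat a b c)) = det3 a b c ^ 2 := by
    rw [LinearMap.det_toLin', cmat_det]
  unfold box
  rw [Measure.addHaar_preimage_linearMap _ (by rw [hdet]; positivity), hdet, Real.volume_pi_Ioo]
  simp only [sub_zero, Finset.prod_const, Finset.card_univ, Fintype.card_fin]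
  rw [← ENNReal.ofReal_pow (by positivity), ← ENNReal.ofReal_mul (abs_nonneg _)]
  congr 1
  rw [abs_of_pos (by positivity)]
  field_simp
  norm_num

theorem box_meas (a b c : Fin 3 → ℝ) : MeasurableSet (box a b c) := by
  unfold box
  exact (LinearMap.continuous_of_finiteDimensional _).measurable (MeasurableSet.univ_pi fun _ => measurableSet_Ioo)

theorem mem_box {a b c v : Fin 3 → ℝ} : v ∈ box a b c ↔ (0 < det3 v b c ∧ det3 v b c < det3 a b c / 3) ∧
    (0 < det3 a v c ∧ det3 a v c < det3 a b c / 3) ∧ (0 < det3 a b v ∧ det3 a b v < det3 a b c / 3) := by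
  unfold box
  rw [Set.mem_preimage, Set.mem_univ_pi]
  constructor
  · intro h
    have h0 := h 0
    have h1 := h 1
    have h2 := h 2
    rw [cmat_apply0, Set.mem_Ioo] at h0
    rw [cmat_apply1, Set.mem_Ioo] at h1
    rw [cmat_apply2, Set.mem_Ioo] at h2
    exact ⟨h0, h1, h2⟩
  · rintro ⟨h0, h1, h2⟩ i
    fin_cases i
    · show Matrix.toLin' (cmat a b c) v 0 ∈ _
      rw [cmat_apply0, Set.mem_Ioo]; exact h0
    · show Matrix.toLin' (cmat a b c) v 1 ∈ _
      rw [cmat_apply1, Set.mem_Ioo]; exact h1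
    · show Matrix.toLin' (cmat a b c) v 2 ∈ _
      rw [cmat_apply2, Set.mem_Ioo]; exact h2

/-- the small parallelepiped is contained in the tetrahedron `0 a b c` -/
theorem box_sub {a b c v : Fin 3 → ℝ} {H : Set (Fin 3 → ℝ)} (hH : Convex ℝ H) (h0 : (0 : Fin 3 → ℝ) ∈ H) (ha : a ∈ H)
    (hb : b ∈ H) (hc : c ∈ H) (hd : 0 < det3 a b c) (hv : v ∈ box a b c) : v ∈ H := by
  obtain ⟨⟨h1, h2⟩, ⟨h3, h4⟩, ⟨h5, h6⟩⟩ := mem_box.1 hv
  have hid : ∀ i, det3 a b c * v i = det3 v b c * a i + det3 a v c * b i + det3 a b v * c i := by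
    intro i
    fin_cases i
    · simp only [det3, Fin.zero_eta]; ring
    · simp only [det3, Fin.mk_one]; ring
    · simp only [det3, Fin.reduceFinMk]; ring
  set D := det3 a b c with hD
  have hs := hH.sum_mem (t := (Finset.univ : Finset (Fin 4)))
    (w := ![1 - (det3 v b c / D + det3 a v c / D + det3 a b v / D), det3 v b c / D, det3 a v c / D, det3 a b v / D])
    (z := ![0, a, b, c]) ?_ ?_ ?_
  rotate_left
  · intro i _
    fin_cases i
    · simp only [Fin.zero_eta, Matrix.cons_val_zero, sub_nonneg]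
      rw [← add_div, ← add_div, div_le_one hd]
      linarith
    · show 0 ≤ det3 v b c / D
      positivity
    · show 0 ≤ det3 a v c / D
      positivity
    · show 0 ≤ det3 a b v / D
      positivity
  · simp only [Fin.sum_univ_four, Matrix.cons_val_zero, Matrix.cons_val_one, Matrix.cons_val]
    ring
  · intro i _
    fin_cases i
    · exact h0
    · exact ha
    · exact hb
    · exact hc
  have e : v = ∑ i : Fin 4, (![1 - (det3 v b c / D + det3 a v c / D + det3 a b v / D), det3 v b c / D, det3 a v c / D,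
      det3 a b v / D] : Fin 4 → ℝ) i • (![0, a, b, c] : Fin 4 → Fin 3 → ℝ) i := by
    simp only [Fin.sum_univ_four, Matrix.cons_val_zero, Matrix.cons_val_one, Matrix.cons_val, smul_zero, zero_add]
    funext i
    simp only [Pi.add_apply, Pi.smul_apply, smul_eq_mul]
    have hi := hid i
    field_simp
    linarith
  rw [e]
  exact hs

theorem Chain.total (C : Chain m W P l) (h0 : 0 < DD W P 1) {H : Set (Fin 3 → ℝ)} (hH : Convex ℝ H)
    (hz : (0 : Fin 3 → ℝ) ∈ H) (hP : ∀ i, i ≤ m → P i ∈ H) (hW : W ∈ H) {V : ℝ} (hV : volume H ≤ ENNReal.ofReal V)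
    (hV0 : 0 ≤ V) : ∑ j ∈ range (m - 2), DD W P (j + 1) ≤ 27 * V := by
  have hD : ∀ j ∈ range (m - 2), 0 < DD W P (j + 1) := by
    intro j hj
    rw [Finset.mem_range] at hj
    exact C.Dpos h0 j (by omega)
  have hdisj : Set.PairwiseDisjoint (↑(range (m - 2)) : Set ℕ) (fun j => box W (P (j + 1)) (P (j + 2))) := by
    have key : ∀ i j, i < j → j < m - 2 → Disjoint (box W (P (i + 1)) (P (i + 2))) (box W (P (j + 1)) (P (j + 2))) := by
      intro i j hij hj
      rw [Set.disjoint_left]
      intro v hv hv'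
      obtain ⟨-, ⟨h3, -⟩, ⟨h5, -⟩⟩ := mem_box.1 hv
      obtain ⟨-, ⟨h3', -⟩, ⟨h5', -⟩⟩ := mem_box.1 hv'
      have e : ∀ x, det3 W x v = - det3 W v x := by
        intro x
        simp only [det3]; ring
      rw [e] at h5 h5'
      exact C.crossing h0 v (i := i + 1) (j := j + 1) (by omega) (by omega) (by omega) (by linarith) h3.le
        (by linarith) h3'.le
    intro i hi j hj hij
    simp only [Finset.coe_range, Set.mem_Iio] at hi hj
    rcases lt_or_gt_of_ne hij with h | h
    · exact key i j h hj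
    · exact (key j i h hi).symm
  have hsub : (⋃ j ∈ range (m - 2), box W (P (j + 1)) (P (j + 2))) ⊆ H := by
    intro v hv
    simp only [Set.mem_iUnion] at hv
    obtain ⟨j, hj, hv⟩ := hv
    have hj' := Finset.mem_range.1 hj
    exact box_sub hH hz hW (hP (j + 1) (by omega)) (hP (j + 2) (by omega)) (hD j hj) hv
  have hle := (measure_mono (μ := volume) hsub).trans hV
  rw [measure_biUnion_finset hdisj (fun j _ => box_meas _ _ _)] at hle
  have e1 : ∑ j ∈ range (m - 2), volume (box W (P (j + 1)) (P (j + 2))) =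
      ENNReal.ofReal ((∑ j ∈ range (m - 2), DD W P (j + 1)) / 27) := by
    rw [Finset.sum_div, ENNReal.ofReal_sum_of_nonneg (fun j hj => by have := (hD j hj).le; positivity)]
    refine Finset.sum_congr rfl fun j hj => ?_
    exact box_volume (hD j hj)
  rw [e1] at hle
  have h6 := (ENNReal.ofReal_le_ofReal_iff hV0).1 hle
  linarith

end MP0e5907LB
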